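import Pool.Agent.Lib.MP_c13936_co.Rooted

-- part Pool.Agent.Lib.MP_c13936_co.Dense
section

/-! Dense graphs have large clique minors (quadratic bound). -/

open Finset Relation

namespace Pool.Agent.Lib.MP_c13936_co

variable {V : Type*} [DecidableEq V]

/-- a model of the complete graph `K_N` inside `U` -/
def CliqueModel (G : SimpleGraph V) (U : Finset V) (N : ℕ) : Prop :=
  ∃ β : Fin N → Finset V, (∀ i, β i ⊆ U ∧ (β i).Nonempty ∧ Conn G (β i)) ∧
    ∀ i j, i ≠ j → Disjoint (β i) (β j) ∧ Touch G (β i) (β j)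

omit [DecidableEq V] in
lemma CliqueModel.mono {G H : SimpleGraph V} (hGH : G ≤ H) {U U' : Finset V} (hU : U ⊆ U')
    {N : ℕ} (h : CliqueModel G U N) : CliqueModel H U' N := by
  obtain ⟨β, h1, h2⟩ := h
  refine ⟨β, fun i => ⟨(h1 i).1.trans hU, (h1 i).2.1, (h1 i).2.2.mono fun _ _ _ _ h => hGH h⟩,
    fun i j hij => ⟨(h2 i j hij).1, ?_⟩⟩
  obtain ⟨a, ha, b, hb, hab⟩ := (h2 i j hij).2
  exact ⟨a, ha, b, hb, hGH hab⟩

lemma exists_rclique {R : V → V → Prop} (hR : ∀ u v, R u v → R v u) :
    ∀ (N : ℕ) (W : Finset V), (∀ u ∈ W, ∀ v ∈ W, ∀ w ∈ W, R u v ∨ R u w ∨ R v w) →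
      N * N ≤ W.card → ∃ C ⊆ W, C.card = N ∧ ∀ u ∈ C, ∀ v ∈ C, u ≠ v → R u v := by
  classical
  intro N
  induction N with
  | zero => intro W _ _; exact ⟨∅, empty_subset _, rfl, by simp⟩
  | succ N ih =>
    intro W hW hc
    obtain ⟨v, hv⟩ : W.Nonempty := card_pos.mp (by nlinarith)
    by_cases h1 : N + 1 ≤ (W.filter (fun u => ¬ R v u)).card
    · obtain ⟨C, hC1, hC2⟩ := exists_subset_card_eq h1
      refine ⟨C, hC1.trans (filter_subset _ _), hC2, fun u hu w hw _ => ?_⟩
      have h2 := mem_filter.mp (hC1 hu)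
      have h3 := mem_filter.mp (hC1 hw)
      have := hW v hv u h2.1 w h3.1
      tauto
    · have h2 := card_filter_add_card_filter_not (s := W) (fun u => R v u)
      have h3 := pred_card_le_card_erase (s := W.filter (fun u => R v u)) (a := v)
      have hsub : (W.filter (fun u => R v u)).erase v ⊆ W :=
        (erase_subset _ _).trans (filter_subset _ _)
      obtain ⟨C, hC1, hC2, hC3⟩ := ih ((W.filter (fun u => R v u)).erase v)
        (fun a ha b hb c hc => hW a (hsub ha) b (hsub hb) c (hsub hc)) (by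
          have : (N + 1) * (N + 1) = N * N + 2 * N + 1 := by ring
          omega)
      have hvC : v ∉ C := fun h => by simpa using hC1 h
      refine ⟨insert v C, insert_subset hv (hC1.trans hsub), by rw [card_insert_of_notMem hvC, hC2],
        fun a ha b hb hab => ?_⟩
      have hv' : ∀ c ∈ C, R v c := fun c hc => (mem_filter.mp (mem_of_mem_erase (hC1 hc))).2
      rcases mem_insert.mp ha with rfl | ha' <;> rcases mem_insert.mp hb with rfl | hb'
      · exact absurd rfl hab
      · exact hv' b hb'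
      · exact hR _ _ (hv' a ha')
      · exact hC3 a ha' b hb' hab

open Classical in
/-- neighbours of `v` inside `U` -/
noncomputable def nbr (G : SimpleGraph V) (U : Finset V) (v : V) : Finset V :=
  U.filter (G.Adj v ·)

omit [DecidableEq V] in
@[simp] lemma mem_nbr {G : SimpleGraph V} {U : Finset V} {v w : V} :
    w ∈ nbr G U v ↔ w ∈ U ∧ G.Adj v w := by simp [nbr]

lemma model_of_half {G : SimpleGraph V} {H : Finset V} {N d : ℕ} (hd : 3 * (N * N) + 3 * N ≤ d)
    (hne : H.Nonempty) (hH : H.card ≤ 2 * d) (hdeg : ∀ u ∈ H, d ≤ (nbr G H u).card) :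
    CliqueModel G H N := by
  classical
  let R : V → V → Prop := fun u w => d ≤ 3 * (nbr G H u ∩ nbr G H w).card
  have hsub : ∀ u, nbr G H u ⊆ H := fun u w hw => (mem_nbr.mp hw).1
  have hHd : d ≤ H.card := by
    obtain ⟨u, hu⟩ := hne
    exact (hdeg u hu).trans (card_le_card (hsub u))
  obtain ⟨C, hC1, hC2, hC3⟩ := exists_rclique (R := R) (fun u w h => by
      simp only [R] at h ⊢; rwa [inter_comm]) N H (fun u hu v hv w hw => by
      have h1 := card_union_add_card_inter (nbr G H u) (nbr G H v)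
      have h2 := card_union_add_card_inter (nbr G H u ∪ nbr G H v) (nbr G H w)
      have h3 : ((nbr G H u ∪ nbr G H v) ∩ nbr G H w).card ≤
          (nbr G H u ∩ nbr G H w).card + (nbr G H v ∩ nbr G H w).card := by
        rw [union_inter_distrib_right]; exact card_union_le _ _
      have h4 : (nbr G H u ∪ nbr G H v ∪ nbr G H w).card ≤ H.card :=
        card_le_card (union_subset (union_subset (hsub u) (hsub v)) (hsub w))
      have := hdeg u hu
      have := hdeg v hv
      have := hdeg w hw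
      simp only [R]
      omega) (by omega)
  let c : Fin N → V := fun i => ((C.equivFinOfCardEq hC2).symm i).1
  have hc : ∀ i, c i ∈ C := fun i => ((C.equivFinOfCardEq hC2).symm i).2
  have hcinj : Function.Injective c := fun i j h =>
    (C.equivFinOfCardEq hC2).symm.injective (Subtype.ext h)
  let t : Fin N × Fin N → Finset V := fun q => (nbr G H (c q.1) ∩ nbr G H (c q.2)) \ C
  have ht : ∀ q, N * N ≤ (t q).card := by
    intro q
    have h1 : R (c q.1) (c q.2) := by
      by_cases h : c q.1 = c q.2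
      · simp only [R, h, inter_self]
        have := hdeg _ (hC1 (hc q.2))
        omega
      · exact hC3 _ (hc _) _ (hc _) h
    have h2 := le_card_sdiff C (nbr G H (c q.1) ∩ nbr G H (c q.2))
    simp only [R] at h1
    simp only [t]
    omega
  obtain ⟨w, hw1, hw2⟩ := (all_card_le_biUnion_card_iff_exists_injective t).mp (fun s => by
    rcases s.eq_empty_or_nonempty with rfl | ⟨q, hq⟩
    · simp
    · calc s.card ≤ N * N := by simpa using card_le_univ s
        _ ≤ (t q).card := ht q
        _ ≤ _ := card_le_card (subset_biUnion_of_mem t hq))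
  have hw3 : ∀ q, w q ∈ H ∧ G.Adj (c q.1) (w q) ∧ G.Adj (c q.2) (w q) ∧ w q ∉ C := by
    intro q
    have := hw2 q
    simp only [t, mem_sdiff, mem_inter, mem_nbr] at this
    tauto
  refine ⟨fun i => insert (c i) (univ.image fun j => w (i, j)), fun i => ⟨?_, insert_nonempty _ _,
    conn_of_root (c i) fun a ha => ?_⟩, fun i j hij => ⟨?_, ?_⟩⟩
  · refine insert_subset (hC1 (hc i)) fun a ha => ?_
    obtain ⟨j, -, rfl⟩ := mem_image.mp ha
    exact (hw3 _).1
  · rcases mem_insert.mp ha with rfl | ha'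
    · exact ReflTransGen.refl
    · obtain ⟨j, -, rfl⟩ := mem_image.mp ha'
      exact ReflTransGen.single ⟨(hw3 (i, j)).2.1.symm, ha, mem_insert_self _ _⟩
  · rw [Finset.disjoint_left]
    intro a ha hb
    simp only [mem_insert, mem_image, mem_univ, true_and] at ha hb
    rcases ha with rfl | ⟨l, rfl⟩ <;> rcases hb with hb | ⟨l', hb⟩
    · exact hij (hcinj hb)
    · exact (hw3 _).2.2.2 (hb ▸ hc i)
    · exact (hw3 _).2.2.2 (hb ▸ hc j)
    · exact hij (congrArg Prod.fst (hw1 hb)).symm
  · exact ⟨w (i, j), by simp, c j, mem_insert_self _ _, (hw3 (i, j)).2.2.1.symm⟩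

lemma card_arcs_eq_sum (G : SimpleGraph V) (U : Finset V) :
    (arcs G U).card = ∑ v ∈ U, (nbr G U v).card := by
  rw [card_eq_sum_card_fiberwise (f := Prod.fst) (t := U)
    (fun p hp => (mem_arcs.mp (mem_coe.mp hp)).1)]
  refine sum_congr rfl fun v hv => ?_
  refine card_bij (fun p _ => p.2) ?_ ?_ ?_
  · intro p hp
    rw [mem_filter, mem_arcs] at hp
    exact mem_nbr.mpr ⟨hp.1.2.1, hp.2 ▸ hp.1.2.2⟩
  · intro p hp q hq h
    exact Prod.ext ((mem_filter.mp hp).2.trans (mem_filter.mp hq).2.symm) h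
  · intro w hw
    rw [mem_nbr] at hw
    exact ⟨(v, w), mem_filter.mpr ⟨mem_arcs.mpr ⟨hv, hw.1, hw.2⟩, rfl⟩, rfl⟩

lemma card_arcs_contr_ge {G : SimpleGraph V} {x y : V} (hxy : G.Adj x y) {U : Finset V}
    (hx : x ∈ U) :
    (arcs G U).card ≤ (arcs (contr G x y) (U.erase y)).card +
      (2 + 2 * (nbr G U x ∩ nbr G U y).card) := by
  set M := nbr G U x ∩ nbr G U y with hM
  set Bad : Finset (V × V) := (insert x M).image (fun w => (y, w)) ∪
    (insert x M).image (fun w => (w, y)) with hBad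
  have h1 : Bad.card ≤ 2 + 2 * M.card := by
    have := card_union_le ((insert x M).image (fun w => (y, w)))
      ((insert x M).image (fun w => (w, y)))
    have := card_image_le (s := insert x M) (f := fun w => (y, w))
    have := card_image_le (s := insert x M) (f := fun w => (w, y))
    have := card_insert_le x M
    rw [hBad]
    omega
  have hmem : ∀ a b, (a, b) ∈ arcs G U \ Bad ↔ a ∈ U ∧ b ∈ U ∧ G.Adj a b ∧
      (a = y → b ≠ x ∧ ¬ G.Adj x b) ∧ (b = y → a ≠ x ∧ ¬ G.Adj x a) := by
    intro a b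
    simp only [hBad, hM, mem_sdiff, mem_arcs, mem_union, mem_image, mem_insert, mem_inter,
      mem_nbr, Prod.mk.injEq]
    constructor
    · rintro ⟨⟨h1, h2, h3⟩, h4⟩
      refine ⟨h1, h2, h3, fun h => ⟨fun h' => h4 (Or.inl ⟨b, Or.inl h', h.symm, rfl⟩), fun h' =>
        h4 (Or.inl ⟨b, Or.inr ⟨⟨h2, h'⟩, h2, h ▸ h3⟩, h.symm, rfl⟩)⟩,
        fun h => ⟨fun h' => h4 (Or.inr ⟨a, Or.inl h', rfl, h.symm⟩), fun h' =>
        h4 (Or.inr ⟨a, Or.inr ⟨⟨h1, h'⟩, h1, h ▸ h3.symm⟩, rfl, h.symm⟩)⟩⟩
    · rintro ⟨h1, h2, h3, h4, h5⟩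
      refine ⟨⟨h1, h2, h3⟩, ?_⟩
      rintro (⟨w, h6 | h6, rfl, rfl⟩ | ⟨w, h6 | h6, rfl, rfl⟩)
      exacts [(h4 rfl).1 h6, (h4 rfl).2 h6.1.2, (h5 rfl).1 h6, (h5 rfl).2 h6.1.2]
  have h2 : (arcs G U \ Bad).card ≤ (arcs (contr G x y) (U.erase y)).card := by
    refine card_le_card_of_injOn (Prod.map (idn x y) (idn x y)) ?_ ?_
    · rintro ⟨a, b⟩ hab
      obtain ⟨h1, h2, h3, h4, h5⟩ := (hmem a b).mp (mem_coe.mp hab)
      refine mem_coe.mpr (mem_arcs.mpr ⟨idn_mem hx hxy.ne h1, idn_mem hx hxy.ne h2, ?_, a, b,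
        rfl, rfl, h3⟩)
      have := h3.ne
      simp only [Prod.map, idn]
      grind
    · rintro ⟨a, b⟩ hab ⟨a', b'⟩ hab' h
      obtain ⟨h1, h2, h3, h4, h5⟩ := (hmem a b).mp (mem_coe.mp hab)
      obtain ⟨h1', h2', h3', h4', h5'⟩ := (hmem a' b').mp (mem_coe.mp hab')
      have := h3.ne
      have := h3'.ne
      have := h3.symm
      have := h3'.symm
      simp only [Prod.map, idn, Prod.mk.injEq] at h ⊢
      grind
  have := le_card_sdiff Bad (arcs G U)
  omega

theorem dense {N d : ℕ} (hd : 3 * (N * N) + 3 * N ≤ d) (hd0 : 0 < d) :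
    ∀ (n : ℕ) (G : SimpleGraph V) (U : Finset V), U.card + (arcs G U).card = n → U.Nonempty →
      2 * d * U.card ≤ (arcs G U).card → CliqueModel G U N := by
  intro n
  induction n using Nat.strong_induction_on with
  | _ n ih =>
  intro G U hn hU h
  have hUc := hU.card_pos
  obtain ⟨⟨x₀, y₀⟩, h0⟩ : (arcs G U).Nonempty := card_pos.mp (by nlinarith)
  rw [mem_arcs] at h0
  obtain ⟨hx₀, hy₀, hxy₀⟩ := h0
  simp only at hx₀ hy₀ hxy₀
  by_cases h1 : 2 * d * U.card + 2 ≤ (arcs G U).card
  · refine (ih _ ?_ (G.deleteEdges {s(x₀, y₀)}) U rfl hU ?_).mono (G.deleteEdges_le _) Subset.rfl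
    · have := card_arcs_delete_lt hxy₀ hx₀ hy₀ Subset.rfl
      omega
    · have h2 : arcs G U \ {(x₀, y₀), (y₀, x₀)} ⊆ arcs (G.deleteEdges {s(x₀, y₀)}) U := by
        rintro ⟨a, b⟩ hab
        simp only [mem_sdiff, mem_arcs, mem_insert, mem_singleton, Prod.mk.injEq,
          SimpleGraph.deleteEdges_adj, Set.mem_singleton_iff, Sym2.eq_iff] at hab ⊢
        tauto
      have h3 := card_le_card h2
      have h4 := le_card_sdiff ({(x₀, y₀), (y₀, x₀)} : Finset (V × V)) (arcs G U)
      have h5 := card_le_two (a := (x₀, y₀)) (b := (y₀, x₀))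
      omega
  by_cases h2 : ∃ x ∈ U, ∃ y ∈ U, G.Adj x y ∧ (nbr G U x ∩ nbr G U y).card < d
  · obtain ⟨x, hx, y, hy, hxy, hlt⟩ := h2
    have h3 := card_arcs_contr_lt hxy hx hy
    have h4 := card_arcs_contr_ge hxy hx
    have h5 := card_erase_add_one hy
    obtain ⟨β, hβ1, hβ2⟩ := ih _ (by omega) (contr G x y) (U.erase y) rfl
      ⟨x, mem_erase.mpr ⟨hxy.ne, hx⟩⟩ (by rw [← h5] at h; nlinarith)
    refine ⟨fun i => U.filter (idn x y · ∈ β i), fun i => ⟨filter_subset _ _, ?_,
      (hβ1 i).2.2.lift_contr hxy hx hy (hβ1 i).1⟩, fun i j hij => ⟨disjoint_lift _ (hβ2 i j hij).1,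
      (hβ2 i j hij).2.lift_contr hy (hβ1 i).1 (hβ1 j).1⟩⟩
    obtain ⟨v, hv⟩ := (hβ1 i).2.1
    have := mem_erase.mp ((hβ1 i).1 hv)
    exact ⟨v, mem_filter.mpr ⟨this.2, by rwa [idn_of_ne this.1]⟩⟩
  push Not at h2
  have hU2 : 2 ≤ U.card := one_lt_card.mpr ⟨x₀, hx₀, y₀, hy₀, hxy₀.ne⟩
  obtain ⟨v, hv, hdeg⟩ : ∃ v ∈ U, (nbr G U v).card ≤ 2 * d := by
    by_contra! hcon
    have := card_nsmul_le_sum U (fun v => (nbr G U v).card) (2 * d + 1) hcon
    rw [← card_arcs_eq_sum, smul_eq_mul] at this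
    nlinarith
  rcases (nbr G U v).eq_empty_or_nonempty with h3 | h3
  · have h4 : arcs G U ⊆ arcs G (U.erase v) := by
      rintro ⟨a, b⟩ hab
      rw [mem_arcs] at hab ⊢
      have k : ∀ w ∈ U, ¬ G.Adj v w := fun w hw h => by
        have : w ∈ nbr G U v := mem_nbr.mpr ⟨hw, h⟩
        simp [h3] at this
      exact ⟨mem_erase.mpr ⟨fun h => k b hab.2.1 (h ▸ hab.2.2), hab.1⟩,
        mem_erase.mpr ⟨fun h => k a hab.1 (h ▸ hab.2.2.symm), hab.2.1⟩, hab.2.2⟩
    have h5 : arcs G (U.erase v) ⊆ arcs G U := by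
      rintro ⟨a, b⟩ hab
      rw [mem_arcs] at hab ⊢
      exact ⟨mem_of_mem_erase hab.1, mem_of_mem_erase hab.2.1, hab.2.2⟩
    have h6 := card_le_card h4
    have h7 := card_le_card h5
    have h8 := card_erase_add_one hv
    refine (ih _ (by omega) G (U.erase v) rfl (card_pos.mp (by omega)) ?_).mono le_rfl
      (erase_subset _ _)
    rw [← h8] at h; nlinarith
  · refine (model_of_half hd h3 hdeg fun u hu => ?_).mono le_rfl fun w hw => (mem_nbr.mp hw).1
    rw [mem_nbr] at hu
    refine (h2 v hv u hu.1 hu.2).trans (card_le_card fun w hw => ?_)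
    simp only [mem_inter, mem_nbr] at hw ⊢
    tauto

end Pool.Agent.Lib.MP_c13936_co
end

-- part Pool.Agent.Lib.MP_c13936_co.Girth
section

/-! Cubic graphs of large girth have large clique minors. -/

open Finset Relation

namespace Pool.Agent.Lib.MP_c13936_co

variable {V E : Type*} [DecidableEq V] [DecidableEq E] [Fintype V] [Fintype E] {s t : E → V}

/-- the underlying simple graph of an edge set -/
def adjG (s t : E → V) (F : Finset E) : SimpleGraph V where
  Adj u v := u ≠ v ∧ Link s t F u v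
  symm := ⟨fun _ _ h => ⟨h.1.symm, h.2.symm⟩⟩
  loopless := ⟨fun _ h => h.1 rfl⟩

omit [DecidableEq V] in
/-- breadth-first forest from a maximal `2r`-separated set -/
lemma exists_bfs {G : SimpleGraph V} (hc : G.Connected) (r : ℕ) :
    ∃ (X : Finset V) (d : V → ℕ) (p root : V → V), X.Nonempty ∧ (∀ v, d v ≤ 2 * r) ∧
      (∀ v, v ∉ X → G.Adj v (p v) ∧ d (p v) + 1 = d v ∧ root (p v) = root v) ∧
      (∀ v ∈ X, d v = 0 ∧ root v = v) ∧ (∀ v, root v ∈ X) ∧
      (∀ v w, d v < r → G.Adj v w → root w = root v) := by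
  classical
  obtain ⟨X, hX, hmax⟩ := exists_max_image
    (univ.filter fun X : Finset V => ∀ x ∈ X, ∀ y ∈ X, x ≠ y → 2 * r < G.dist x y) card
    ⟨∅, by simp⟩
  simp only [mem_filter, mem_univ, true_and] at hX hmax
  have hnear : ∀ v, ∃ x ∈ X, G.dist v x ≤ 2 * r := by
    intro v
    by_contra! hcon
    have hv : v ∉ X := fun h => by simpa using hcon v h
    have := hmax (insert v X) (by
      intro x hx y hy hxy
      rcases mem_insert.mp hx with rfl | hx' <;> rcases mem_insert.mp hy with rfl | hy'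
      · exact absurd rfl hxy
      · exact hcon y hy'
      · rw [G.dist_comm]; exact hcon x hx'
      · exact hX x hx' y hy' hxy)
    rw [card_insert_of_notMem hv] at this
    omega
  obtain ⟨v₀⟩ := hc.nonempty
  have hne : X.Nonempty := by obtain ⟨x, hx, -⟩ := hnear v₀; exact ⟨x, hx⟩
  choose near hn1 hn2 using fun v => exists_min_image X (G.dist v) hne
  obtain ⟨d, hd⟩ : ∃ d : V → ℕ, ∀ v, d v = G.dist v (near v) := ⟨_, fun _ => rfl⟩
  have d0 : ∀ v ∈ X, d v = 0 := fun v hv => by simpa [hd] using hn2 v v hv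
  have dadj : ∀ v w, G.Adj v w → d v ≤ d w + 1 := by
    intro v w h
    have h1 := hn2 v _ (hn1 w)
    have h2 := hc.dist_triangle (u := v) (v := w) (w := near w)
    rw [SimpleGraph.dist_eq_one_iff_adj.mpr h] at h2
    rw [hd, hd]; omega
  have hpar : ∀ v, ∃ w, (v ∉ X → G.Adj v w ∧ d w + 1 = d v) := by
    intro v
    by_cases hv : v ∈ X
    · exact ⟨v, fun h => absurd hv h⟩
    have key : ∀ x ∈ X, ∀ q : G.Walk v x, ∃ w, G.Adj v w ∧ d w + 1 ≤ q.length := by
      intro x hx q
      cases q with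
      | nil => exact absurd hx hv
      | cons h q =>
        refine ⟨_, h, ?_⟩
        have h1 := SimpleGraph.dist_le q
        rw [hd, SimpleGraph.Walk.length_cons]
        exact Nat.succ_le_succ ((hn2 _ x hx).trans h1)
    obtain ⟨q, hq⟩ := hc.exists_walk_length_eq_dist v (near v)
    obtain ⟨w, h1, h2⟩ := key _ (hn1 v) q
    have := dadj v w h1
    exact ⟨w, fun _ => ⟨h1, by rw [hq, ← hd] at h2; omega⟩⟩
  choose p hp using hpar
  have hstep : ∀ v, v ∉ X → p^[d (p v)] (p v) = p^[d v] v := fun v hv => by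
    rw [← (hp v hv).2, Function.iterate_succ_apply]
  have hroot : ∀ n v, d v = n → p^[d v] v ∈ X ∧ G.dist v (p^[d v] v) ≤ d v := by
    intro n
    induction n with
    | zero =>
      intro v hv
      have : v ∈ X := by
        by_contra h
        have := (hp v h).2
        omega
      simp [hv, this]
    | succ n ih =>
      intro v hv
      have hX' : v ∉ X := fun h => by have := d0 v h; omega
      have h1 := hp v hX'
      obtain ⟨h2, h3⟩ := ih (p v) (by omega)
      rw [hstep v hX'] at h2 h3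
      have h4 := hc.dist_triangle (u := v) (v := p v) (w := p^[d v] v)
      rw [SimpleGraph.dist_eq_one_iff_adj.mpr h1.1] at h4
      exact ⟨h2, by omega⟩
  refine ⟨X, d, p, fun v => p^[d v] v, hne, fun v => ?_,
    fun v hv => ⟨(hp v hv).1, (hp v hv).2, hstep v hv⟩,
    fun v hv => ⟨d0 v hv, by simp [d0 v hv]⟩, fun v => (hroot _ v rfl).1, fun v w hv h => ?_⟩
  · obtain ⟨x, hx, h⟩ := hnear v
    rw [hd]; exact (hn2 v x hx).trans h
  · by_contra hcon
    obtain ⟨a1, a2⟩ := hroot _ v rfl
    obtain ⟨b1, b2⟩ := hroot _ w rfl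
    have h1 := hX _ b1 _ a1 hcon
    have h2 := hc.dist_triangle (u := p^[d w] w) (v := w) (w := p^[d v] v)
    have h3 := hc.dist_triangle (u := w) (v := v) (w := p^[d v] v)
    rw [SimpleGraph.dist_eq_one_iff_adj.mpr h.symm] at h3
    have h4 := dadj w v h.symm
    rw [G.dist_comm] at b2
    omega

omit [DecidableEq V] [DecidableEq E] [Fintype V] [Fintype E] in
lemma Reach.reachable {F : Finset E} {u v : V} (h : Reach s t F u v) :
    (adjG s t F).Reachable u v := by
  induction h with
  | refl => exact SimpleGraph.Reachable.refl _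
  | @tail a b _ hl ih =>
    by_cases hab : a = b
    · exact hab ▸ ih
    · exact ih.trans (SimpleGraph.Adj.reachable ⟨hab, hl⟩)

theorem clique_minor (h3 : ∀ v, deg s t univ v = 3) {k : ℕ}
    (hG : CyclicallyEdgeConnected s t k) {r N D : ℕ} (hr : 8 * r + 4 < k)
    (hD : 3 * (N * N) + 3 * N ≤ D) (hD0 : 0 < D) (h2 : 2 * D ≤ 2 ^ r) :
    CliqueModel (adjG s t univ) univ N := by
  classical
  obtain ⟨C₁, -, ⟨⟨e₁, -⟩, -⟩, -⟩ := hG.2.1
  have : Nonempty V := ⟨s e₁⟩
  have : Nonempty E := ⟨e₁⟩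
  have hc : (adjG s t univ).Connected := ⟨fun u v => (hG.1 u v).reachable⟩
  obtain ⟨X, d, p, root, hne, hd, hp, hX, hroot, hadj⟩ := exists_bfs hc r
  have hpe : ∀ v, v ∉ X → ∃ e, (s e = v ∧ t e = p v) ∨ (s e = p v ∧ t e = v) := fun v hv => by
    obtain ⟨e, -, he⟩ := (hp v hv).1.2
    exact ⟨e, he⟩
  choose! pe hpe using hpe
  have hinj : ∀ v, v ∉ X → ∀ w, w ∉ X → pe v = pe w → v = w := by
    intro v hv w hw h
    have a1 := hpe v hv
    have a2 := hpe w hw
    have a3 := (hp v hv).2.1
    have a4 := (hp w hw).2.1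
    rw [h] at a1
    rcases a1 with ⟨a, b⟩ | ⟨a, b⟩ <;> rcases a2 with ⟨a', b'⟩ | ⟨a', b'⟩
    · exact a.symm.trans a'
    · rw [← b, b'] at a3; rw [← a', a] at a4; omega
    · rw [← a, a'] at a3; rw [← b', b] at a4; omega
    · exact b.symm.trans b'
  have hanc : ∀ n v, d v = n → ∃ Y : Finset V, v ∈ Y ∧ Y.card ≤ n + 1 ∧
      ∀ u ∈ Y, (u ∉ X → p u ∈ Y) ∧ root u = root v := by
    intro n
    induction n with
    | zero =>
      intro v hv
      refine ⟨{v}, by simp, by simp, fun u hu => ?_⟩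
      rw [mem_singleton.mp hu]
      exact ⟨fun h => by have := (hp v h).2.1; omega, rfl⟩
    | succ n ih =>
      intro v hv
      have hv' : v ∉ X := fun h => by have := (hX v h).1; omega
      obtain ⟨Y, h1, h2, h3⟩ := ih (p v) (by have := (hp v hv').2.1; omega)
      refine ⟨insert v Y, by simp, (card_insert_le _ _).trans (by omega), fun u hu => ?_⟩
      rcases mem_insert.mp hu with rfl | hu
      · exact ⟨fun _ => mem_insert_of_mem h1, rfl⟩
      · exact ⟨fun h => mem_insert_of_mem ((h3 u hu).1 h), (h3 u hu).2.trans (hp v hv').2.2⟩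
  choose anc ha1 ha2 ha3 using fun v => hanc _ v rfl
  obtain ⟨PE, hPE⟩ : ∃ PE : Finset E, PE = Xᶜ.image pe := ⟨_, rfl⟩
  have himg : ∀ Y : Finset V, ((Y \ X).image pe).card = (Y \ X).card := fun Y =>
    card_image_of_injOn fun v hv w hw h =>
      hinj v (mem_sdiff.mp (mem_coe.mp hv)).2 w (mem_sdiff.mp (mem_coe.mp hw)).2 h
  have key : ∀ e e', e ∉ PE → e' ∉ PE → ∀ R : Finset V, root (s e) ∈ R → root (t e) ∈ R →
      root (s e') ∈ R → root (t e') ∈ R → ({e, e'} : Finset E).card < R.card := by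
    intro e e' he he' R r1 r2 r3 r4
    obtain ⟨Y, hY⟩ : ∃ Y, Y = anc (s e) ∪ anc (t e) ∪ (anc (s e') ∪ anc (t e')) := ⟨_, rfl⟩
    have hcard : Y.card < k := by
      have c1 := card_union_le (anc (s e) ∪ anc (t e)) (anc (s e') ∪ anc (t e'))
      have c2 := card_union_le (anc (s e)) (anc (t e))
      have c3 := card_union_le (anc (s e')) (anc (t e'))
      have := ha2 (s e); have := ha2 (t e); have := ha2 (s e'); have := ha2 (t e')
      have := hd (s e); have := hd (t e); have := hd (s e'); have := hd (t e')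
      rw [hY]; omega
    have hcl : ∀ u ∈ Y, (u ∉ X → p u ∈ Y) ∧ root u ∈ R := by
      intro u hu
      simp only [hY, mem_union] at hu ⊢
      rcases hu with (hu | hu) | (hu | hu) <;> have := ha3 _ u hu <;>
        exact ⟨fun h => by simp [this.1 h], by rwa [this.2]⟩
    have h1 := girth h3 hG (Y := Y) ⟨s e, by simp [hY, ha1]⟩ hcard
    have h2 : {e, e'} ∪ (Y \ X).image pe ⊆ inside s t Y := by
      intro f hf
      rw [mem_inside]
      rcases mem_union.mp hf with hf | hf
      · rcases mem_insert.mp hf with rfl | hf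
        · simp [hY, ha1]
        · rw [mem_singleton.mp hf]; simp [hY, ha1]
      · obtain ⟨v, hv, rfl⟩ := mem_image.mp hf
        rw [mem_sdiff] at hv
        have := (hcl v hv.1).1 hv.2
        rcases hpe v hv.2 with ⟨a, b⟩ | ⟨a, b⟩ <;> rw [a, b] <;> simp [this, hv.1]
    have h4 : Disjoint ({e, e'} : Finset E) ((Y \ X).image pe) := by
      rw [Finset.disjoint_left]
      intro f hf hf'
      have : f ∈ PE := by
        obtain ⟨v, hv, rfl⟩ := mem_image.mp hf'
        rw [hPE]; exact mem_image_of_mem _ (mem_compl.mpr (mem_sdiff.mp hv).2)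
      rcases mem_insert.mp hf with rfl | hf
      · exact he this
      · exact he' (mem_singleton.mp hf ▸ this)
    have h5 := card_le_card h2
    rw [card_union_of_disjoint h4, himg] at h5
    have h6 : Y ∩ X ⊆ R := fun u hu => by
      rw [mem_inter] at hu
      have := (hcl u hu.1).2
      rwa [(hX u hu.2).2] at this
    have h7 := card_le_card h6
    have h8 := card_sdiff_add_card_inter Y X
    omega
  have one : ∀ e, e ∉ PE → root (s e) ≠ root (t e) := fun e he h => by
    have := key e e he he {root (s e)} (by simp) (by simp [h]) (by simp) (by simp [h])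
    simp at this
  have two : ∀ e e', e ∉ PE → e' ∉ PE → root (s e') ∈ ({root (s e), root (t e)} : Finset V) →
      root (t e') ∈ ({root (s e), root (t e)} : Finset V) → e = e' := fun e e' he he' h h' => by
    by_contra hne
    have := key e e' he he' _ (by simp) (by simp) h h'
    rw [card_pair hne, card_pair (one e he)] at this
    omega
  let H : SimpleGraph V :=
    { Adj := fun x y => x ≠ y ∧ ∃ u v, root u = x ∧ root v = y ∧ (adjG s t univ).Adj u v
      symm := ⟨fun _ _ ⟨h, u, v, h1, h2, h3⟩ => ⟨h.symm, v, u, h2, h1, h3.symm⟩⟩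
      loopless := ⟨fun _ h => h.1 rfl⟩ }
  have harc : (PEᶜ ×ˢ (univ : Finset Bool)).card ≤ (arcs H X).card := by
    refine card_le_card_of_injOn (fun q => if q.2 then (root (s q.1), root (t q.1))
      else (root (t q.1), root (s q.1))) ?_ ?_
    · rintro ⟨e, b⟩ hq
      have he : e ∉ PE := by simpa using hq
      have h1 : H.Adj (root (s e)) (root (t e)) := ⟨one e he, _, _, rfl, rfl,
        fun h => one e he (by rw [h]), e, mem_univ _, Or.inl ⟨rfl, rfl⟩⟩
      cases b <;> simp [hroot, h1, h1.symm]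
    · rintro ⟨e, b⟩ hq ⟨e', b'⟩ hq' h
      have he : e ∉ PE := by simpa using hq
      have he' : e' ∉ PE := by simpa using hq'
      have : e = e' := two e e' he he'
        (by cases b <;> cases b' <;> simp at h <;> simp [h.1, h.2])
        (by cases b <;> cases b' <;> simp at h <;> simp [h.1, h.2])
      subst this
      have := one e he
      cases b <;> cases b' <;> simp at h <;> first | rfl | exact absurd h.1 this | exact absurd h.2 this
  have hE := cubic_count h3 univ
  have e1 : inside s t univ = univ := by ext; simp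
  have e2 : cut s t univ = ∅ := by ext; simp
  have e3 : PE.card ≤ Xᶜ.card := hPE ▸ card_image_le
  have e4 := card_add_card_compl PE
  have e5 := card_add_card_compl X
  rw [e1, e2, card_univ, card_univ, card_empty] at hE
  rw [card_product, card_univ, Fintype.card_bool] at harc
  have hlev : ∀ i ≤ r, 2 ^ i * X.card ≤ (univ.filter (d · ≤ i)).card := by
    intro i
    induction i with
    | zero =>
      intro _
      rw [pow_zero, one_mul]
      exact card_le_card fun v hv => by simp [(hX v hv).1]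
    | succ i ih =>
      intro hi
      have c0 := ih (by omega)
      have c1 := cubic_count h3 (univ.filter (d · ≤ i))
      have hpar : ∀ e, (d (s e) ≤ i ∨ d (t e) ≤ i) → ∃ v, v ∉ X ∧ e = pe v := by
        intro e he
        have : e ∈ PE := by
          by_contra hcon
          have h1 := one e hcon
          have h2 : (adjG s t univ).Adj (s e) (t e) :=
            ⟨fun h => h1 (by rw [h]), e, mem_univ _, Or.inl ⟨rfl, rfl⟩⟩
          rcases he with he | he
          · exact h1 (hadj _ _ (by omega) h2).symm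
          · exact h1 (hadj _ _ (by omega) h2.symm)
        rw [hPE] at this
        obtain ⟨v, hv, rfl⟩ := mem_image.mp this
        exact ⟨v, mem_compl.mp hv, rfl⟩
      have c2 : (inside s t (univ.filter (d · ≤ i))).card ≤ (univ.filter (d · ≤ i)).card := by
        refine le_trans (card_le_card fun e he => ?_) (card_image_le (f := pe))
        simp only [mem_inside, mem_filter, mem_univ, true_and] at he
        obtain ⟨v, hv, rfl⟩ := hpar e (Or.inl he.1)
        refine mem_image_of_mem _ ?_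
        rcases hpe v hv with ⟨a, b⟩ | ⟨a, b⟩ <;> rw [a, b] at he <;> simp [he]
      have c3 : (cut s t (univ.filter (d · ≤ i))).card ≤
          (univ.filter (d · ≤ i + 1) \ univ.filter (d · ≤ i)).card := by
        refine le_trans (card_le_card fun e he => ?_) (card_image_le (f := pe))
        simp only [mem_cut, mem_filter, mem_univ, true_and] at he
        obtain ⟨v, hv, rfl⟩ := hpar e (by tauto)
        refine mem_image_of_mem _ ?_
        have := (hp v hv).2.1
        simp only [mem_sdiff, mem_filter, mem_univ, true_and]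
        rcases hpe v hv with ⟨a, b⟩ | ⟨a, b⟩ <;> rw [a, b] at he <;> omega
      have c4 := card_sdiff_add_card_eq_card (s := univ.filter (d · ≤ i))
        (t := univ.filter (d · ≤ i + 1)) fun v hv => by
          simp only [mem_filter, mem_univ, true_and] at hv ⊢; omega
      rw [pow_succ]
      nlinarith
  have hn := (hlev r le_rfl).trans (card_le_univ _)
  obtain ⟨β, b1, b2⟩ := dense hD hD0 _ H X rfl hne
    (le_trans (Nat.mul_le_mul_right _ h2) (by omega))
  have hfib : ∀ x, Conn (adjG s t univ) (univ.filter (root · = x)) := by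
    intro x
    refine conn_of_root x fun a ha => ?_
    have : ∀ n a, d a = n → root a = x →
        ReflTransGen (Step (adjG s t univ) (univ.filter (root · = x))) a x := by
      intro n
      induction n using Nat.strong_induction_on with
      | _ n ih =>
      intro a ha hx
      by_cases h : a ∈ X
      · rw [← hx, (hX a h).2]
      · have h' := hp a h
        exact ReflTransGen.head ⟨h'.1, by simp [hx], by simp [h'.2.2, hx]⟩
          (ih _ (by omega) _ rfl (h'.2.2.trans hx))
    exact this _ a rfl (by simpa using ha)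
  refine ⟨fun i => univ.filter (root · ∈ β i), fun i => ⟨subset_univ _, ?_, ?_⟩,
    fun i j hij => ⟨disjoint_lift root (b2 i j hij).1, ?_⟩⟩
  · obtain ⟨x, hx⟩ := (b1 i).2.1
    exact ⟨x, by simp [(hX x ((b1 i).1 hx)).2, hx]⟩
  · refine Conn.lift root hfib ?_ (b1 i).2.2
    rintro x - y - ⟨-, u, v, h1, h2, h3⟩
    exact ⟨u, mem_univ _, v, mem_univ _, h1, h2, h3⟩
  · obtain ⟨a, ha, b, hb, -, u, v, h1, h2, h3⟩ := (b2 i j hij).2
    exact ⟨u, by simp [h1, ha], v, by simp [h2, hb], h3⟩

lemma arith {k : ℕ} (hk : 200 ≤ k) :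
    ∃ r, 8 * r + 4 < k ∧ 2 * (3 * (8 * k * (8 * k)) + 3 * (8 * k)) ≤ 2 ^ r := by
  have key : ∀ r, 24 ≤ r → 384 * (8 * r + 12) ^ 2 + 48 * (8 * r + 12) ≤ 2 ^ r := by
    intro r hr
    induction r, hr using Nat.le_induction with
    | base => norm_num
    | succ r hr ih => rw [pow_succ 2 r]; nlinarith
  refine ⟨(k - 5) / 8, by omega, le_trans ?_ (key _ (by omega))⟩
  have : k ≤ 8 * ((k - 5) / 8) + 12 := by omega
  nlinarith

end Pool.Agent.Lib.MP_c13936_co
end

-- part Pool.Agent.Lib.MP_c13936_co.Rado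
section

/-! Rado's theorem on independent transversals, and the rank of an edge set. -/

open Finset Relation

namespace Pool.Agent.Lib.MP_c13936_co

section Rado

variable {K M E : Type*} [Field K] [AddCommGroup M] [Module K M] [FiniteDimensional K M]
  [DecidableEq E]

variable (K) in
/-- the rank of a finite family of vectors -/
noncomputable def rk (w : E → M) (W : Finset E) : ℕ :=
  Module.finrank K (Submodule.span K (w '' W))

omit [DecidableEq E] in
lemma rk_mono (w : E → M) {W W' : Finset E} (h : W ⊆ W') : rk K w W ≤ rk K w W' :=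
  Submodule.finrank_mono (Submodule.span_mono (Set.image_mono h))

lemma rk_submod (w : E → M) (W W' : Finset E) :
    rk K w (W ∪ W') + rk K w (W ∩ W') ≤ rk K w W + rk K w W' := by
  unfold rk
  rw [← Submodule.finrank_sup_add_finrank_inf_eq (Submodule.span K (w '' W)), coe_union,
    Set.image_union, Submodule.span_union]
  have : Submodule.span K (w '' (W ∩ W' : Finset E)) ≤
      Submodule.span K (w '' W) ⊓ Submodule.span K (w '' W') :=
    le_inf (Submodule.span_mono (Set.image_mono (coe_subset.mpr inter_subset_left)))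
      (Submodule.span_mono (Set.image_mono (coe_subset.mpr inter_subset_right)))
  exact Nat.add_le_add_left (Submodule.finrank_mono this) _

theorem rado {ι : Type*} [DecidableEq ι] [Nonempty E] (w : E → M) (I : Finset ι) :
    ∀ (n : ℕ) (A : ι → Finset E), ∑ i ∈ I, (A i).card = n →
      (∀ J ⊆ I, J.card ≤ rk K w (J.biUnion A)) →
      ∃ π : ι → E, (∀ i ∈ I, π i ∈ A i) ∧ LinearIndepOn K (fun i => w (π i)) I := by
  intro n
  induction n using Nat.strong_induction_on with
  | _ n ih =>
  intro A hn h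
  by_cases h1 : ∃ i₀ ∈ I, 1 < (A i₀).card
  · obtain ⟨i₀, hi₀, h1⟩ := h1
    obtain ⟨x, hx, y, hy, hxy⟩ := one_lt_card.mp h1
    have red : ∀ z ∈ A i₀, (∀ J ⊆ I.erase i₀,
        J.card + 1 ≤ rk K w (J.biUnion A ∪ (A i₀).erase z)) →
        ∃ π : ι → E, (∀ i ∈ I, π i ∈ A i) ∧ LinearIndepOn K (fun i => w (π i)) I := by
      intro z hz hJ
      obtain ⟨π, h2, h3⟩ := ih _ (by
        rw [← hn]
        refine sum_lt_sum (fun i _ => ?_) ⟨i₀, hi₀, ?_⟩
        · split_ifs with hi
          · rw [hi]; exact card_erase_le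
          · exact le_rfl
        · rw [if_pos rfl]; exact card_erase_lt_of_mem hz)
        (fun i => if i = i₀ then (A i₀).erase z else A i) rfl (by
        intro J hJI
        by_cases hi : i₀ ∈ J
        · rw [← card_erase_add_one hi]
          refine (hJ _ (erase_subset_erase _ hJI)).trans (rk_mono _ fun e he => ?_)
          rcases mem_union.mp he with he | he
          · obtain ⟨i, hi', he⟩ := mem_biUnion.mp he
            exact mem_biUnion.mpr ⟨i, mem_of_mem_erase hi', by rwa [if_neg (ne_of_mem_erase hi')]⟩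
          · exact mem_biUnion.mpr ⟨i₀, hi, by rwa [if_pos rfl]⟩
        · refine (h J hJI).trans (rk_mono _ fun e he => ?_)
          obtain ⟨i, hi', he⟩ := mem_biUnion.mp he
          exact mem_biUnion.mpr ⟨i, hi', by rwa [if_neg fun h : i = i₀ => hi (h ▸ hi')]⟩)
      refine ⟨π, fun i hi => ?_, h3⟩
      have := h2 i hi
      split_ifs at this with h'
      · rw [h']  at this ⊢; exact mem_of_mem_erase this
      · exact this
    by_contra hcon
    have r1 := mt (red x hx) hcon
    have r2 := mt (red y hy) hcon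
    push Not at r1 r2
    obtain ⟨J₁, a1, a2⟩ := r1
    obtain ⟨J₂, b1, b2⟩ := r2
    have c1 := rk_submod (K := K) w (J₁.biUnion A ∪ (A i₀).erase x) (J₂.biUnion A ∪ (A i₀).erase y)
    have hn0 : i₀ ∉ J₁ ∪ J₂ := fun h => by
      rcases mem_union.mp h with h | h
      · exact notMem_erase _ _ (a1 h)
      · exact notMem_erase _ _ (b1 h)
    have c2 := (h (insert i₀ (J₁ ∪ J₂)) (insert_subset hi₀ (union_subset
      (a1.trans (erase_subset _ _)) (b1.trans (erase_subset _ _))))).trans (rk_mono (K := K) w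
      (W' := (J₁.biUnion A ∪ (A i₀).erase x) ∪ (J₂.biUnion A ∪ (A i₀).erase y)) fun e he => by
        simp only [mem_biUnion, mem_insert, mem_union, mem_erase] at he ⊢
        grind)
    have c3 := (h (J₁ ∩ J₂) (inter_subset_left.trans (a1.trans (erase_subset _ _)))).trans
      (rk_mono (K := K) w
      (W' := (J₁.biUnion A ∪ (A i₀).erase x) ∩ (J₂.biUnion A ∪ (A i₀).erase y)) fun e he => by
        simp only [mem_biUnion, mem_inter, mem_union, mem_erase] at he ⊢
        grind)
    rw [card_insert_of_notMem hn0] at c2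
    have := card_union_add_card_inter J₁ J₂
    omega
  · push Not at h1
    have hne : ∀ i ∈ I, ∃ e, A i = {e} := by
      intro i hi
      have := h {i} (by simpa using hi)
      rw [← card_eq_one]
      by_contra h0
      have h2 : A i = ∅ := card_eq_zero.mp (by have := h1 i hi; omega)
      simp [h2, rk] at this
    choose! π hπ using hne
    refine ⟨π, fun i hi => by simp [hπ i hi], ?_⟩
    rw [LinearIndepOn, linearIndependent_iff_card_le_finrank_span]
    have := h I Subset.rfl
    simp only [coe_sort_coe, Fintype.card_coe]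
    refine this.trans (Submodule.finrank_mono (Submodule.span_mono ?_))
    rintro _ ⟨e, he, rfl⟩
    obtain ⟨i, hi, he⟩ := mem_biUnion.mp (mem_coe.mp he)
    rw [hπ i hi, mem_singleton] at he
    exact ⟨⟨i, hi⟩, by rw [he]⟩

end Rado

variable {V E : Type*} [DecidableEq V] [DecidableEq E] {s t : E → V}

omit [DecidableEq V] [DecidableEq E] in
lemma exists_rep (F : Finset E) : ∃ ρ : V → V, (∀ v, Reach s t F v (ρ v)) ∧
    ∀ u v, Reach s t F u v → ρ u = ρ v := by
  let r : Setoid V := ⟨Reach s t F, Reach.refl F, Reach.symm, Reach.trans⟩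
  exact ⟨fun v => (Quotient.mk r v).out, fun v => Reach.symm (Quotient.mk_out (s := r) v),
    fun u v h => congrArg Quotient.out (Quotient.sound (s := r) h)⟩

omit [DecidableEq E] in
lemma rank_ge [Fintype V] (W : Finset E) (ρ : V → V) (h1 : ∀ v, Reach s t W v (ρ v))
    (h2 : ∀ v, ρ (ρ v) = ρ v) :
    (univ.filter fun v => ρ v ≠ v).card ≤ rk (ZMod 2) (vec s t) W := by
  have hli : LinearIndependent (ZMod 2) (fun v : {v // ρ v ≠ v} =>
      (Pi.single v.1 1 + Pi.single (ρ v.1) 1 : V → ZMod 2)) := by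
    rw [Fintype.linearIndependent_iff]
    intro g hg u
    have := congrFun hg u.1
    rw [Finset.sum_apply, sum_eq_single u] at this
    · simpa [Pi.single_apply, u.2.symm] using this
    · intro v _ hv
      have a1 : u.1 ≠ v.1 := fun h => hv (Subtype.ext h.symm)
      have a2 : u.1 ≠ ρ v.1 := fun h => u.2 (by rw [h, h2])
      simp [a1, a2]
    · simp
  rw [← Fintype.card_subtype, ← finrank_span_eq_card hli]
  refine Submodule.finrank_mono (Submodule.span_le.mpr ?_)
  rintro _ ⟨v, rfl⟩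
  refine (h1 v).closed (fun u => (Pi.single v.1 1 + Pi.single u 1 : V → ZMod 2) ∈
    Submodule.span (ZMod 2) (vec s t '' W)) ?_ fun e he => ?_
  · simp only [add_self_vec, Submodule.zero_mem]
  · have hm : vec s t e ∈ Submodule.span (ZMod 2) (vec s t '' W) :=
      Submodule.subset_span ⟨e, he, rfl⟩
    rw [← Submodule.add_mem_iff_left _ hm, vec, add_assoc, ← add_assoc (Pi.single (s e) 1),
      add_self_vec, zero_add]

lemma sum_vec_symmDiff (F F' : Finset E) :
    ∑ e ∈ symmDiff F F', vec s t e = ∑ e ∈ F, vec s t e + ∑ e ∈ F', vec s t e := by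
  rw [symmDiff_def, sup_eq_union, sum_union disjoint_sdiff_sdiff, ← sum_inter_add_sum_sdiff F F',
    ← sum_inter_add_sum_sdiff F' F, inter_comm F' F, add_add_add_comm, add_self_vec, zero_add]

omit [DecidableEq E] in
open Classical in
lemma deg_component (F : Finset E) (x v : V) :
    deg s t (F.filter fun e => Reach s t F x (s e)) v =
      if Reach s t F x v then deg s t F v else 0 := by
  split_ifs with hv
  · simp only [deg, filter_filter]
    congr 2
    · exact filter_congr fun e _ => ⟨fun h => h.2, fun h => ⟨h ▸ hv, h⟩⟩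
    · exact filter_congr fun e he =>
        ⟨fun h => h.2, fun h => ⟨(reach_edge_iff he _).mpr (h ▸ hv), h⟩⟩
  · rw [deg_eq_zero]
    intro e he
    rw [mem_filter] at he
    exact ⟨fun h => hv (h ▸ he.2), fun h => hv (h ▸ (reach_edge_iff he.1 _).mp he.2)⟩

/-- the count behind the rank condition, for one class -/
lemma class_count [Fintype V] [Fintype E] (h3 : ∀ v, deg s t univ v = 3) {k : ℕ}
    (hG : CyclicallyEdgeConnected s t k) {S : Finset E} (hS : S.card < k) {D : Finset E}
    (hD : IsCircuit s t D) {A : Finset V} (hDA : D ⊆ inside s t Aᶜ) {K Y : Finset V}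
    {S' P : Finset E} (hK : K.Nonempty) (hYK : Y ⊆ K) (hYA : Y ⊆ A) (hS' : S' ⊆ S)
    (hPY : Y.card ≤ P.card) (hP : ∀ e, e ∉ S → (s e ∈ Y ∨ t e ∈ Y) → e ∈ P)
    (hPS : ∀ e ∈ P, e ∉ S) (hWK : S' ∪ P ⊆ inside s t K) (hWA : S' ∪ P ⊆ inside s t A) :
    Y.card + S'.card + 1 ≤ K.card := by
  have hW : (S' ∪ P).card = S'.card + P.card :=
    card_union_of_disjoint (Finset.disjoint_left.mpr fun e h1 h2 => hPS e h2 (hS' h1))
  have hS'W : S' ⊆ S' ∪ P := subset_union_left
  have hPW : P ⊆ S' ∪ P := subset_union_right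
  generalize S' ∪ P = W at *
  obtain ⟨N₁, hN₁⟩ : ∃ N, N = (K \ Y).filter (deg s t W · ≤ 1) := ⟨_, rfl⟩
  obtain ⟨N₂, hN₂⟩ : ∃ N, N = (K \ Y).filter (¬ deg s t W · ≤ 1) := ⟨_, rfl⟩
  have c1 : N₁.card + N₂.card = (K \ Y).card := by
    rw [hN₁, hN₂]; exact card_filter_add_card_filter_not _
  have c2 := card_sdiff_add_card_eq_card hYK
  have c3 : (Y ∪ N₂).card = Y.card + N₂.card := card_union_of_disjoint (by
    rw [hN₂]; exact disjoint_sdiff.mono_right (filter_subset _ _))
  have c4 : (W.filter (fun e => s e ∈ N₁ ∨ t e ∈ N₁)).card ≤ N₁.card := by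
    refine (card_inc_le W N₁).trans ?_
    rw [card_eq_sum_ones]
    exact sum_le_sum fun v hv => by rw [hN₁] at hv; exact (mem_filter.mp hv).2
  have c5 : (Wᶜ.filter (fun e => s e ∈ N₂ ∨ t e ∈ N₂)).card ≤ N₂.card := by
    refine (card_inc_le Wᶜ N₂).trans ?_
    rw [card_eq_sum_ones]
    refine sum_le_sum fun v hv => ?_
    have h1 := deg_union (s := s) (t := t) (disjoint_compl_right (a := W)) v
    rw [union_compl, h3] at h1
    rw [hN₂] at hv
    have := (mem_filter.mp hv).2
    omega
  have m1 : ∀ v ∈ K, v ∉ Y ∪ N₂ → v ∈ N₁ := by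
    intro v hv h
    simp only [hN₁, hN₂, mem_union, mem_filter, mem_sdiff] at h ⊢
    tauto
  by_cases h0 : (Y ∪ N₂).Nonempty
  · by_cases h1 : (Y ∪ N₂).card ≤ (inside s t (Y ∪ N₂)).card
    · have hZA : Y ∪ N₂ ⊆ A := by
        refine union_subset hYA fun v hv => ?_
        by_contra hvA
        rw [hN₂] at hv
        refine (mem_filter.mp hv).2 (le_of_eq_of_le (deg_eq_zero.mpr fun e he => ?_) zero_le_one)
        have := mem_inside.mp (hWA he)
        exact ⟨fun h => hvA (h ▸ this.1), fun h => hvA (h ▸ this.2)⟩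
      have c6 := cut_ge_of_card h3 hG h0 h1 hD fun e he => by
        have := hDA he
        simp only [mem_inside, mem_compl] at this ⊢
        exact ⟨fun h => this.1 (hZA h), fun h => this.2 (hZA h)⟩
      have c7 : cut s t (Y ∪ N₂) ⊆ W.filter (fun e => s e ∈ N₁ ∨ t e ∈ N₁) ∪
          Wᶜ.filter (fun e => s e ∈ N₂ ∨ t e ∈ N₂) ∪ S \ S' := by
        intro e he
        have a1 := fun h => mem_inside.mp (@hWK e h)
        have a2 := m1 (s e)
        have a3 := m1 (t e)
        have a4 := hP e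
        have a5 := @hS'W e
        have a6 := @hPW e
        simp only [mem_cut, mem_union, mem_filter, mem_sdiff, mem_compl] at he a2 a3 ⊢
        grind
      have c8 := (card_le_card c7).trans ((card_union_le _ _).trans
        (Nat.add_le_add_right (card_union_le _ _) _))
      have c9 := card_sdiff_add_card_eq_card hS'
      omega
    · have c7 : W ⊆ inside s t (Y ∪ N₂) ∪ W.filter (fun e => s e ∈ N₁ ∨ t e ∈ N₁) := by
        intro e he
        have a1 := mem_inside.mp (hWK he)
        have a2 := m1 (s e)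
        have a3 := m1 (t e)
        simp only [mem_inside, mem_union, mem_filter] at a2 a3 ⊢
        grind
      have c8 := (card_le_card c7).trans (card_union_le _ _)
      omega
  · rw [not_nonempty_iff_eq_empty] at h0
    have c6 := sum_deg' (s := s) (t := t) W K
    rw [filter_true_of_mem fun e he => mem_inside.mp (hWK he)] at c6
    have c7 : ∑ v ∈ K, deg s t W v ≤ K.card := by
      rw [card_eq_sum_ones]
      refine sum_le_sum fun v hv => ?_
      have := m1 v hv (by simp [h0])
      rw [hN₁] at this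
      exact (mem_filter.mp this).2
    have := hK.card_pos
    rw [h0, card_empty] at c3
    omega

/-- a forest containing `S` whose odd vertices lie in `A ∩ B` -/
theorem exists_forest [Fintype V] [Fintype E] (h3 : ∀ v, deg s t univ v = 3) {k : ℕ}
    (hG : CyclicallyEdgeConnected s t k) {S : Finset E} (hS : S.card < k)
    (hcut : ∀ X, cut s t X ⊆ S → Even (cut s t X).card) {D : Finset E}
    (hD : IsCircuit s t D) {A B : Finset V} (hDA : D ⊆ inside s t Aᶜ) (hSA : S ⊆ inside s t A)
    (hBA : ∀ v, v ∉ B → v ∈ A) (hAB : ∀ e, (s e ∉ B ∨ t e ∉ B) → e ∈ inside s t A) :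
    ∃ F, S ⊆ F ∧ F ⊆ inside s t A ∧ (∀ v, Odd (deg s t F v) → v ∈ A ∩ B) ∧
      ∀ e ∈ F, ∃ a, Odd (deg s t F a) ∧ Reach s t F (s e) a := by
  classical
  have : Nonempty E := ⟨hD.1.choose⟩
  obtain ⟨ρ, hρ1, hρ2⟩ := exists_rep (s := s) (t := t) Sᶜ
  obtain ⟨J, hJ⟩ : ∃ J : Finset V, ∀ v, v ∈ J ↔
      v ∉ B ∧ ¬ (ρ v = v ∧ ∀ u, Reach s t Sᶜ v u → u ∉ B) :=
    ⟨univ.filter fun v => v ∉ B ∧ ¬ (ρ v = v ∧ ∀ u, Reach s t Sᶜ v u → u ∉ B), by simp⟩
  obtain ⟨P, hP⟩ : ∃ P : Finset V → Finset E, ∀ Y e, e ∈ P Y ↔ e ∉ S ∧ (s e ∈ Y ∨ t e ∈ Y) :=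
    ⟨fun Y => univ.filter fun e => e ∉ S ∧ (s e ∈ Y ∨ t e ∈ Y), by simp⟩
  have hPY : ∀ Y : Finset V, Y ⊆ J → Y.card ≤ (P Y).card := by
    intro Y
    induction Y using Finset.strongInduction with
    | H Y ih =>
    intro hY
    rcases Y.eq_empty_or_nonempty with rfl | ⟨y, hy⟩
    · simp
    have : ∃ e, e ∉ S ∧ ¬ (s e ∈ Y ↔ t e ∈ Y) := by
      by_contra! hcon
      have h1 : ∀ u, Reach s t Sᶜ y u → u ∈ Y := fun u hu =>
        hu.closed (· ∈ Y) hy fun e he => hcon e (mem_compl.mp he)
      exact ((hJ _).mp (hY (h1 _ (hρ1 y)))).2 ⟨(hρ2 _ _ (hρ1 y)).symm,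
        fun u hu => ((hJ _).mp (hY (h1 u ((hρ1 y).trans hu)))).1⟩
    obtain ⟨e, he, he'⟩ := this
    obtain ⟨z, hz, hz'⟩ : ∃ z ∈ Y, e ∉ P (Y.erase z) := by
      by_cases h : s e ∈ Y
      · exact ⟨s e, h, by rw [hP]; simp only [mem_erase]; tauto⟩
      · exact ⟨t e, by tauto, by rw [hP]; simp only [mem_erase]; tauto⟩
    have h1 := ih _ (erase_ssubset hz) ((erase_subset _ _).trans hY)
    have h2 : insert e (P (Y.erase z)) ⊆ P Y := by
      refine insert_subset ((hP _ _).mpr ⟨he, by tauto⟩) fun f hf => ?_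
      rw [hP] at hf ⊢
      exact ⟨hf.1, hf.2.imp mem_of_mem_erase mem_of_mem_erase⟩
    have h4 := card_le_card h2
    rw [card_insert_of_notMem hz'] at h4
    have := card_erase_add_one hz
    omega
  have hrank : ∀ S' ⊆ S, ∀ Y ⊆ J, S'.card + Y.card ≤ rk (ZMod 2) (vec s t) (S' ∪ P Y) := by
    intro S' hS' Y hY
    obtain ⟨σ, hσ1, hσ2⟩ := exists_rep (s := s) (t := t) (S' ∪ P Y)
    have hσ3 : ∀ v, σ (σ v) = σ v := fun v => (hσ2 _ _ (hσ1 v)).symm
    have hσ4 : ∀ e ∈ S' ∪ P Y, σ (s e) = σ (t e) := fun e he => hσ2 _ _ (Reach.edge he)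
    refine le_trans ?_ (rank_ge _ σ hσ1 hσ3)
    rw [card_eq_sum_card_fiberwise (f := fun e => σ (s e)) (t := univ) (by simp),
      card_eq_sum_card_fiberwise (s := Y) (f := σ) (t := univ) (by simp),
      card_eq_sum_card_fiberwise (s := filter _ _) (f := σ) (t := univ) (by simp),
      ← sum_add_distrib]
    refine sum_le_sum fun x _ => ?_
    by_cases hx : σ x = x
    · have h1 := class_count h3 hG hS hD hDA (K := univ.filter (σ · = x))
        (Y := Y.filter (σ · = x)) (S' := S'.filter (fun e => σ (s e) = x))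
        (P := P (Y.filter (σ · = x))) ⟨x, by simp [hx]⟩ (filter_subset_filter _ (subset_univ _))
        (fun v hv => hBA v ((hJ v).mp (hY (mem_filter.mp hv).1)).1)
        ((filter_subset _ _).trans hS') (hPY _ ((filter_subset _ _).trans hY))
        (fun e h1 h2 => (hP _ _).mpr ⟨h1, h2⟩) (fun e he => ((hP _ _).mp he).1) (by
          intro e he
          rw [mem_union, hP] at he
          have := hσ4 e
          simp only [mem_inside, mem_filter, mem_univ, true_and, mem_union, hP] at he this ⊢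
          grind) (by
          intro e he
          rcases mem_union.mp he with he | he
          · exact hSA (hS' (mem_filter.mp he).1)
          · exact hAB e (((hP _ _).mp he).2.imp
              (fun h => ((hJ _).mp (hY (mem_filter.mp h).1)).1)
              (fun h => ((hJ _).mp (hY (mem_filter.mp h).1)).1)))
      have h2 : (univ.filter fun v => σ v ≠ v).filter (σ · = x) =
          (univ.filter (σ · = x)).erase x := by
        ext v
        simp only [mem_filter, mem_erase, mem_univ, true_and]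
        grind
      have h4 := card_erase_add_one (s := univ.filter (σ · = x)) (a := x) (by simp [hx])
      rw [h2]
      omega
    · have h1 : ∀ v, σ v ≠ x := fun v h => hx (by rw [← h, hσ3])
      simp [h1]
  obtain ⟨π, hπ, hli⟩ := rado (K := ZMod 2) (vec s t) (S.disjSum J) _
    (Sum.elim (fun e => {e}) fun v => P {v}) rfl (by
      intro I hI
      rw [← card_toLeft_add_card_toRight]
      refine (hrank _ (fun e he => by simpa using hI (mem_toLeft.mp he)) _
        (fun v hv => by simpa using hI (mem_toRight.mp hv))).trans (rk_mono _ fun e he => ?_)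
      rw [mem_union, hP] at he
      rw [mem_biUnion]
      rcases he with he | ⟨he, h | h⟩
      · exact ⟨_, mem_toLeft.mp he, by simp⟩
      · exact ⟨_, mem_toRight.mp h, by simp [hP, he]⟩
      · exact ⟨_, mem_toRight.mp h, by simp [hP, he]⟩)
  have hπ1 : ∀ e ∈ S, π (Sum.inl e) = e := fun e he => by simpa using hπ (Sum.inl e) (by simpa)
  have hπ2 : ∀ v ∈ J, π (Sum.inr v) ∉ S ∧ (s (π (Sum.inr v)) = v ∨ t (π (Sum.inr v)) = v) :=
    fun v hv => by simpa [hP] using hπ (Sum.inr v) (by simpa)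
  have hinj : Set.InjOn π (S.disjSum J) := fun i hi j hj h => hli.injOn hi hj (by simp [h])
  obtain ⟨T, hT⟩ : ∃ T, T = J.image fun v => π (Sum.inr v) := ⟨_, rfl⟩
  have hTc : T.card = J.card := by
    rw [hT]
    exact card_image_of_injOn fun u hu v hv h =>
      Sum.inr_injective (hinj (by simpa using hu) (by simpa using hv) h)
  have hST : Disjoint S T := by
    rw [hT, Finset.disjoint_right]
    intro e he
    obtain ⟨v, hv, rfl⟩ := mem_image.mp he
    exact (hπ2 v hv).1
  have hfor : ∀ F ⊆ S ∪ T, (∀ v, Even (deg s t F v)) → F = ∅ := by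
    intro F hF hev
    have h1 : F = ((S.disjSum J).filter (π · ∈ F)).image π := by
      ext e
      simp only [mem_image, mem_filter]
      refine ⟨fun he => ?_, fun ⟨i, hi, h⟩ => h ▸ hi.2⟩
      rcases mem_union.mp (hF he) with h | h
      · exact ⟨Sum.inl e, ⟨by simpa, by rwa [hπ1 e h]⟩, hπ1 e h⟩
      · rw [hT] at h
        obtain ⟨v, hv, rfl⟩ := mem_image.mp h
        exact ⟨Sum.inr v, ⟨by simpa, he⟩, rfl⟩
    have h2 : ∑ e ∈ F, vec s t e = 0 := funext fun v => by
      rw [sum_vec]; exact ZMod.natCast_eq_zero_iff_even.mpr (hev v)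
    rw [h1, sum_image (hinj.mono (coe_subset.mpr (filter_subset _ _)))] at h2
    have h4 := (linearIndepOn_finset_iff.mp (hli.mono (coe_subset.mpr
      (filter_subset (π · ∈ F) _)))) (fun _ => 1) (by simpa using h2)
    rw [h1, eq_empty_of_forall_notMem fun i hi => one_ne_zero (h4 i hi), image_empty]
  have hker : ∀ F ⊆ T, (∀ v ∈ J, Even (deg s t F v)) → F = ∅ := by
    intro F hF hev
    obtain ⟨C, hC⟩ : ∃ C, C = J.filter fun v => π (Sum.inr v) ∈ F := ⟨_, rfl⟩
    have h1 : F.card ≤ C.card := by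
      refine le_trans (card_le_card fun e he => ?_) (card_image_le (f := fun v => π (Sum.inr v)))
      have := hF he
      rw [hT] at this
      obtain ⟨v, hv, rfl⟩ := mem_image.mp this
      exact mem_image_of_mem _ (by rw [hC]; exact mem_filter.mpr ⟨hv, he⟩)
    have h2 : ∑ v ∈ C, 2 ≤ ∑ v ∈ C, deg s t F v := by
      refine sum_le_sum fun v hv => ?_
      rw [hC, mem_filter] at hv
      obtain ⟨c, hc⟩ := hev v hv.1
      have : deg s t F v ≠ 0 := fun h => by
        have := deg_eq_zero.mp h _ hv.2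
        have := (hπ2 v hv.1).2
        tauto
      omega
    have h4 := sum_deg (s := s) (t := t) F univ
    simp only [mem_univ, filter_true] at h4
    rw [← sum_add_sum_compl C] at h4
    simp only [sum_const, smul_eq_mul] at h2
    have h5 : ∑ v ∈ Cᶜ, deg s t F v = 0 := by omega
    refine hfor F (hF.trans subset_union_right) fun v => ?_
    by_cases hv : v ∈ C
    · exact hev v (by rw [hC] at hv; exact (mem_filter.mp hv).1)
    · rw [sum_eq_zero_iff.mp h5 v (mem_compl.mpr hv)]; exact Even.zero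
  obtain ⟨F₁, hF₁, hodd⟩ := surjOn_of_injOn_of_card_le (s := T.powerset) (t := J.powerset)
    (fun F => J.filter fun v => Odd (deg s t F v))
    (fun F _ => mem_coe.mpr (mem_powerset.mpr (filter_subset _ _))) (by
      intro F hF F' hF' h
      rw [← symmDiff_eq_bot]
      refine hker _ (symmDiff_le_sup.trans (sup_le (by simpa using hF) (by simpa using hF')))
        fun v hv => ?_
      have h1 : Odd (deg s t F v) ↔ Odd (deg s t F' v) := by
        simpa [hv] using Finset.ext_iff.mp h v
      rwa [← ZMod.natCast_eq_zero_iff_even, ← sum_vec, sum_vec_symmDiff, Pi.add_apply, sum_vec,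
        sum_vec, ← Nat.cast_add, ZMod.natCast_eq_zero_iff_even, Nat.even_add'])
    (by simp [hTc]) (mem_coe.mpr (mem_powerset.mpr (filter_subset (fun v => Odd (deg s t S v)) J)))
  have hF₁T : F₁ ⊆ T := by simpa using hF₁
  have hev : ∀ v ∈ J, Even (deg s t (S ∪ F₁) v) := fun v hv => by
    rw [deg_union (hST.mono_right hF₁T), Nat.even_add']
    simpa [hv] using (Finset.ext_iff.mp hodd v).symm
  have hFA : S ∪ F₁ ⊆ inside s t A := by
    refine union_subset hSA fun e he => ?_
    have := hF₁T he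
    rw [hT] at this
    obtain ⟨v, hv, rfl⟩ := mem_image.mp this
    have := ((hJ v).mp hv).1
    exact hAB _ ((hπ2 v hv).2.imp (fun h => by rwa [h]) (fun h => by rwa [h]))
  refine ⟨S ∪ F₁, subset_union_left, hFA, fun v hv => mem_inter.mpr ⟨?_, ?_⟩, fun e he => ?_⟩
  · by_contra hvA
    rw [deg_eq_zero.mpr fun e he => ?_] at hv
    · exact absurd hv (by simp)
    · have := mem_inside.mp (hFA he)
      exact ⟨fun h => hvA (h ▸ this.1), fun h => hvA (h ▸ this.2)⟩
  · by_contra hvB
    have h0 : ρ v = v ∧ ∀ u, Reach s t Sᶜ v u → u ∉ B := by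
      by_contra h
      exact Nat.not_odd_iff_even.mpr (hev v ((hJ v).mpr ⟨hvB, h⟩)) hv
    obtain ⟨K, hK⟩ : ∃ K : Finset V, ∀ u, u ∈ K ↔ Reach s t Sᶜ v u :=
      ⟨univ.filter (Reach s t Sᶜ v ·), by simp⟩
    have h1 : cut s t K ⊆ S := fun e he => by
      by_contra h
      rw [mem_cut, hK, hK] at he
      exact he (reach_edge_iff (mem_compl.mpr h) v)
    have h2 := sum_deg' (s := s) (t := t) (S ∪ F₁) K
    have h4 : (S ∪ F₁).filter (fun e => ¬ (s e ∈ K ↔ t e ∈ K)) = cut s t K := by
      ext e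
      rw [mem_filter, mem_cut]
      exact ⟨fun h => h.2, fun h => ⟨mem_union_left _ (h1 (mem_cut.mpr h)), h⟩⟩
    rw [h4, ← add_sum_erase K _ ((hK v).mpr (Reach.refl _ _))] at h2
    have h5 : Even (∑ u ∈ K.erase v, deg s t (S ∪ F₁) u) := by
      refine even_sum _ fun u hu => hev u ?_
      rw [mem_erase, hK] at hu
      exact (hJ u).mpr ⟨h0.2 u hu.2, fun h => hu.1 (by rw [← h.1, ← hρ2 _ _ hu.2, h0.1])⟩
    have h6 := hv.add_even h5
    rw [h2] at h6
    exact Nat.not_odd_iff_even.mpr ((even_two_mul _).add (hcut K h1)) h6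
  · by_contra! hcon
    have := hfor ((S ∪ F₁).filter fun f => Reach s t (S ∪ F₁) (s e) (s f))
      ((filter_subset _ _).trans (union_subset_union_right hF₁T)) fun v => by
        rw [deg_component]
        split_ifs with h
        · exact Nat.not_odd_iff_even.mp fun h' => hcon v h' h
        · exact Even.zero
    exact filter_eq_empty_iff.mp this he (Reach.refl _ _)

end Pool.Agent.Lib.MP_c13936_co
end

-- part Pool.Agent.Lib.MP_c13936_co.Main
section

/-! Circuits through prescribed edges for large cyclic edge-connectivity. -/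

open Finset Relation

namespace Pool.Agent.Lib.MP_c13936_co

variable {V E : Type*} [DecidableEq V] [DecidableEq E] [Fintype V] [Fintype E] {s t : E → V}

omit [Fintype V] in
lemma exists_path_set {F : Finset E} {X : Finset V} {a b : V}
    (h : ReflTransGen (Step (adjG s t F) X) a b) : ∃ Q ⊆ F ∩ inside s t X,
      ∑ e ∈ Q, vec s t e = Pi.single a 1 + Pi.single b 1 := by
  induction h with
  | refl => exact ⟨∅, empty_subset _, by rw [add_self_vec, sum_empty]⟩
  | @tail u v _ huv ih =>
    obtain ⟨Q, h1, h2⟩ := ih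
    obtain ⟨⟨-, e, he, h⟩, hu, hv⟩ := huv
    refine ⟨symmDiff Q {e}, symmDiff_le_sup.trans (sup_le h1 ?_), ?_⟩
    · rcases h with ⟨rfl, rfl⟩ | ⟨rfl, rfl⟩ <;> simp [he, hu, hv]
    · have : vec s t e = Pi.single u 1 + Pi.single v 1 := by
        rcases h with ⟨rfl, rfl⟩ | ⟨rfl, rfl⟩
        · rfl
        · exact add_comm _ _
      rw [sum_vec_symmDiff, h2, sum_singleton, this, add_assoc, ← add_assoc (Pi.single u 1),
        add_self_vec, zero_add]

/-- closing up a forest through a rooted clique minor -/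
lemma merge (h3 : ∀ v, deg s t univ v = 3) {F' : Finset E} {U Z : Finset V} {γ : V → Finset V}
    (hγ : RootedModel (adjG s t F') U Z γ) {S : Finset E} (hS : S.Nonempty) :
    ∀ (n : ℕ) (F : Finset E), (univ.filter fun v => Odd (deg s t F v)).card = n → S ⊆ F →
      (∀ v, Odd (deg s t F v) → v ∈ Z) →
      (∀ a b, Odd (deg s t F a) → Odd (deg s t F b) →
        Disjoint F (F' ∩ inside s t (γ a ∪ γ b))) →
      ((∀ e ∈ S, ∃ a, Odd (deg s t F a) ∧ Reach s t F (s e) a) ∨
        ∀ e ∈ S, ∀ e' ∈ S, Reach s t F (s e) (s e')) →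
      ∃ C, IsCircuit s t C ∧ S ⊆ C := by
  intro n
  induction n using Nat.strong_induction_on with
  | _ n ih =>
  intro F hn hSF hZ hdis hinv
  have step : ∀ a b, a ≠ b → Odd (deg s t F a) → Odd (deg s t F b) →
      ((∀ e ∈ S, ∃ c, (Odd (deg s t F c) ∧ c ≠ a ∧ c ≠ b) ∧ Reach s t F (s e) c) ∨
        ∀ e ∈ S, ∀ e' ∈ S, Reach s t F (s e) (s e')) → ∃ C, IsCircuit s t C ∧ S ⊆ C := by
    intro a b hab ha hb hinv'
    have ga := hγ.1 a (hZ a ha)
    have gb := hγ.1 b (hZ b hb)
    obtain ⟨Q, h1, h2⟩ := exists_path_set ((ga.2.2.union_touch gb.2.2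
      (hγ.2 a (hZ a ha) b (hZ b hb) hab).2) a (mem_union_left _ ga.1) b (mem_union_right _ gb.1))
    have hodd : ∀ v, Odd (deg s t (F ∪ Q) v) ↔ Odd (deg s t F v) ∧ v ≠ a ∧ v ≠ b := by
      intro v
      have h4 := congrFun h2 v
      rw [sum_vec] at h4
      rw [deg_union ((hdis a b ha hb).mono_right h1), Nat.odd_add,
        ← ZMod.natCast_eq_zero_iff_even, h4]
      by_cases h5 : v = a
      · subst h5; simp [ha, hab]
      · by_cases h6 : v = b
        · subst h6; simp [hb, h5]
        · simp [h5, h6]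
    refine ih _ ?_ (F ∪ Q) rfl (hSF.trans subset_union_left) (fun v hv => hZ v ((hodd v).mp hv).1)
      (fun c d hc hd => ?_) (hinv'.imp (fun h e he => ?_)
        fun h e he e' he' => (h e he e' he').mono subset_union_left)
    · rw [← hn]
      refine card_lt_card ⟨fun v hv => ?_, fun h => ?_⟩
      · simp only [mem_filter, mem_univ, true_and, hodd] at hv ⊢; exact hv.1
      · have := @h a (by simpa using ha)
        simp [hodd] at this
    · rw [hodd] at hc hd
      rw [disjoint_union_left]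
      refine ⟨hdis c d hc.1 hd.1, Finset.disjoint_left.mpr fun e he he' => ?_⟩
      have k1 := mem_union.mp (mem_inside.mp (mem_inter.mp (h1 he)).2).1
      have k2 := mem_union.mp (mem_inside.mp (mem_inter.mp he').2).1
      have k3 : ∀ x y, Odd (deg s t F x) → Odd (deg s t F y) → x ≠ y → s e ∈ γ x → s e ∉ γ y :=
        fun x y hx hy hxy h => Finset.disjoint_left.mp (hγ.2 x (hZ x hx) y (hZ y hy) hxy).1 h
      rcases k1 with k1 | k1 <;> rcases k2 with k2 | k2
      · exact k3 _ _ hc.1 ha hc.2.1 k2 k1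
      · exact k3 _ _ hd.1 ha hd.2.1 k2 k1
      · exact k3 _ _ hc.1 hb hc.2.2 k2 k1
      · exact k3 _ _ hd.1 hb hd.2.2 k2 k1
    · obtain ⟨c, k1, k2⟩ := h e he
      exact ⟨c, (hodd c).mpr k1, k2.mono subset_union_left⟩
  by_cases h1 : ∃ a b, Odd (deg s t F a) ∧ Odd (deg s t F b) ∧ ¬ Reach s t F a b
  · obtain ⟨a, b, ha, hb, hab⟩ := h1
    refine step a b (fun h => hab (h ▸ Reach.refl _ _)) ha hb (hinv.imp_left fun h e he => ?_)
    obtain ⟨c, k1, k2⟩ := h e he
    by_cases hca : c = a
    · subst hca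
      obtain ⟨x, k3, k4, k5⟩ := exists_odd_partner ha
      exact ⟨x, ⟨k4, k3, fun h => hab (h ▸ k5)⟩, k2.trans k5⟩
    · by_cases hcb : c = b
      · subst hcb
        obtain ⟨x, k3, k4, k5⟩ := exists_odd_partner hb
        exact ⟨x, ⟨k4, fun h => hab (h ▸ k5.symm), k3⟩, k2.trans k5⟩
      · exact ⟨c, ⟨k1, hca, hcb⟩, k2⟩
  · push Not at h1
    have h2 : ∀ e ∈ S, ∀ e' ∈ S, Reach s t F (s e) (s e') := by
      refine hinv.elim (fun h e he e' he' => ?_) id
      obtain ⟨c, k1, k2⟩ := h e he
      obtain ⟨c', k3, k4⟩ := h e' he'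
      exact (k2.trans (h1 c c' k1 k3)).trans k4.symm
    by_cases h4 : ∃ a, Odd (deg s t F a)
    · obtain ⟨a, ha⟩ := h4
      obtain ⟨b, k3, k4, -⟩ := exists_odd_partner ha
      exact step a b k3.symm ha k4 (Or.inr h2)
    · obtain ⟨e₀, he₀⟩ := hS
      obtain ⟨C, -, k1, k2⟩ := circuit_of_even h3 (F := F)
        (fun v => Nat.not_odd_iff_even.mp fun h => h4 ⟨v, h⟩) (hSF he₀)
      exact ⟨C, k1, fun e he => k2 e (hSF he) (h2 _ he₀ _ he)⟩

omit [Fintype V] in
lemma few_meet {ι : Type*} [Fintype ι] {β : ι → Finset V}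
    (h : ∀ i j, i ≠ j → Disjoint (β i) (β j)) (Z : Finset V) :
    (univ.filter fun i => ¬ Disjoint (β i) Z).card ≤ Z.card := by
  rcases Z.eq_empty_or_nonempty with rfl | ⟨z, -⟩
  · simp
  have : Nonempty V := ⟨z⟩
  choose! f hf using fun i (hi : ¬ Disjoint (β i) Z) => not_disjoint_iff.mp hi
  refine card_le_card_of_injOn f (fun i hi => (hf i (by simpa using hi)).2) fun i hi j hj hij => ?_
  by_contra hne
  exact Finset.disjoint_left.mp (h i j hne) (hf i (by simpa using hi)).1
    (hij ▸ (hf j (by simpa using hj)).1)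

theorem main (h3 : ∀ v, deg s t univ v = 3) {k : ℕ} (hG : CyclicallyEdgeConnected s t k)
    (hk : 200 ≤ k) {S : Finset E} (hS : S.card < k)
    (hcut : ∀ X, cut s t X ⊆ S → Even (cut s t X).card) : ∃ C, IsCircuit s t C ∧ S ⊆ C := by
  classical
  rcases S.eq_empty_or_nonempty with rfl | hne
  · obtain ⟨C, -, h, -⟩ := hG.2.1
    exact ⟨C, h, empty_subset _⟩
  obtain ⟨r, hr1, hr2⟩ := arith hk
  obtain ⟨β, b1, b2⟩ := clique_minor h3 hG (N := 8 * k) hr1 le_rfl (by positivity) hr2
  have few := few_meet fun i j hij => (b2 i j hij).1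
  have many : ∀ Z : Finset V, 8 * k ≤ Z.card + (univ.filter fun i => Disjoint (β i) Z).card := by
    intro Z
    have h1 := card_filter_add_card_filter_not (s := univ) fun i => Disjoint (β i) Z
    have := few Z
    rw [card_univ, Fintype.card_fin] at h1
    omega
  have hA₀ : (S.image s ∪ S.image t).card ≤ 2 * S.card := by
    have := card_union_le (S.image s) (S.image t)
    have := card_image_le (s := S) (f := s)
    have := card_image_le (s := S) (f := t)
    omega
  have hmem : (S.image s ∪ S.image t, univ) ∈ univ.filter fun q : Finset V × Finset V =>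
      Sep (adjG s t univ) univ q.1 q.2 ∧ S ⊆ inside s t q.1 ∧ ∃ i, Disjoint (β i) q.1 := by
    refine mem_filter.mpr ⟨mem_univ _, ⟨union_eq_right.mpr (subset_univ _), fun a _ h => absurd (mem_univ a) h⟩,
      fun e he => ?_, ?_⟩
    · exact mem_inside.mpr ⟨mem_union_left _ (mem_image_of_mem _ he),
        mem_union_right _ (mem_image_of_mem _ he)⟩
    · have := many (S.image s ∪ S.image t)
      obtain ⟨i, hi⟩ := card_pos.mp (show 0 < (univ.filter fun i =>
        Disjoint (β i) (S.image s ∪ S.image t)).card by omega)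
      exact ⟨i, (mem_filter.mp hi).2⟩
  obtain ⟨⟨A, B⟩, h, hmin⟩ := exists_min_image _ (fun q => (q.1 ∩ q.2).card) ⟨_, hmem⟩
  have hm := hmin _ hmem
  simp only [mem_filter, mem_univ, true_and, inter_univ, Prod.forall] at h hmin hm
  obtain ⟨hsep, hSA, i₀, hi₀⟩ := h
  have hpre : PreModel (adjG s t univ) univ ∅ β :=
    ⟨fun _ => subset_univ _, fun i => (b1 i).2.1, fun i j h => (b2 i j h).1,
      fun i => Or.inl (b1 i).2.2, fun i j h => Or.inr (b2 i j h).2⟩
  have hout : ∀ i, Disjoint (β i) (A ∩ B) → Disjoint (β i) A := fun i hi =>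
    hpre.disjoint_left hsep (empty_subset _) hi₀ fun ⟨z, h1, h2⟩ =>
      Finset.disjoint_left.mp hi h2 h1
  have adj : ∀ e, s e ≠ t e → (adjG s t univ).Adj (s e) (t e) := fun e h =>
    ⟨h, e, mem_univ _, Or.inl ⟨rfl, rfl⟩⟩
  have c1 := many (A ∩ B)
  have c2 : (univ.filter fun i => Disjoint (β i) (A ∩ B)).card ≤ Aᶜ.card := by
    refine le_trans (card_le_card fun i hi => ?_) (few Aᶜ)
    obtain ⟨x, hx⟩ := (b1 i).2.1
    simp only [mem_filter, mem_univ, true_and] at hi ⊢
    exact not_disjoint_iff.mpr ⟨x, hx, mem_compl.mpr (Finset.disjoint_left.mp (hout i hi) hx)⟩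
  have c3 : (cut s t Aᶜ).card ≤ 3 * (A ∩ B).card := by
    have := card_inc_le (s := s) (t := t) univ (A ∩ B)
    simp only [h3, sum_const, smul_eq_mul] at this
    refine le_trans (card_le_card fun e he => ?_) (this.trans_eq (mul_comm _ _))
    simp only [mem_cut, mem_compl, mem_filter, mem_univ, true_and, mem_inter] at he ⊢
    have h1 := adj e fun h => he (by rw [h])
    by_cases h2 : s e ∈ A
    · exact Or.inl ⟨h2, hsep.adj_mem (mem_univ _) (by tauto) (mem_univ _) h1.symm⟩
    · exact Or.inr ⟨by tauto, hsep.adj_mem (mem_univ _) h2 (mem_univ _) h1⟩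
  have c4 := cubic_count h3 Aᶜ
  obtain ⟨D, hDA, hD⟩ := exists_circuit_of_card h3 (Y := Aᶜ) (card_pos.mp (by omega)) (by omega)
  have hBA : ∀ v, v ∉ B → v ∈ A := fun v hv => hsep.symm.mem_right (mem_univ _) hv
  obtain ⟨F, f1, f2, f3, f4⟩ := exists_forest h3 hG hS hcut hD hDA hSA hBA (by
    intro e he
    rw [mem_inside]
    by_cases h : s e = t e
    · rw [← h] at he ⊢; simpa using hBA _ (by simpa using he)
    · rcases he with he | he
      · exact ⟨hBA _ he, hsep.symm.adj_mem (mem_univ _) he (mem_univ _) (adj e h)⟩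
      · exact ⟨hsep.symm.adj_mem (mem_univ _) he (mem_univ _) (adj e h).symm, hBA _ he⟩)
  have hadj : ∀ u v, v ∉ A ∩ B → (adjG s t univ).Adj u v →
      (adjG s t (inside s t (A ∩ B))ᶜ).Adj u v := by
    rintro u v hv ⟨h1, e, -, h2⟩
    refine ⟨h1, e, mem_compl.mpr fun h => hv ?_, h2⟩
    rw [mem_inside] at h
    rcases h2 with ⟨-, rfl⟩ | ⟨rfl, -⟩
    · exact h.2
    · exact h.1
  obtain ⟨g, hg⟩ : ∃ g : Fin (2 * (A ∩ B).card) ↪o Fin (8 * k),
      ∀ i, Disjoint (β (g i)) (A ∩ B) :=
    ⟨orderEmbOfCardLe (univ.filter fun i => Disjoint (β i) (A ∩ B)) (by omega),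
      fun i => (mem_filter.mp (orderEmbOfCardLe_mem
        (univ.filter fun i => Disjoint (β i) (A ∩ B)) _ i)).2⟩
  obtain ⟨γ, hγ⟩ := rooted (A ∩ B).card _ (adjG s t (inside s t (A ∩ B))ᶜ) B (A ∩ B)
    (fun i => β (g i)) rfl inter_subset_right rfl
    ⟨fun i v hv => hsep.mem_right (mem_univ _) (Finset.disjoint_left.mp (hout _ (hg i)) hv),
      fun i => (b1 _).2.1, fun i j h => (b2 _ _ (g.injective.ne h)).1,
      fun i => Or.inl ((b1 _).2.2.mono fun u _ v hv =>
        hadj u v (Finset.disjoint_left.mp (hg i) hv)),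
      fun i j h => Or.inr (by
        obtain ⟨a, ha, b, hb, hab⟩ := (b2 _ _ (g.injective.ne h)).2
        exact ⟨a, ha, b, hb, hadj a b (Finset.disjoint_left.mp (hg j) hb) hab⟩)⟩ (by
    rintro A' B' hs hZ ⟨i, hi⟩
    have hs' : Sep (adjG s t univ) B A' B' := ⟨hs.1, fun a ha ha' b hb hb' hab =>
      hs.2 a ha ha' b hb hb' (hadj a b (fun h => hb' (hZ h)) hab)⟩
    obtain ⟨k1, k2⟩ := hsep.combine_right hs' hZ
    rw [← k2]
    refine hmin _ _ ⟨k1, fun e he => ?_, g i, disjoint_union_right.mpr ⟨hi, hout _ (hg i)⟩⟩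
    have := mem_inside.mp (hSA he)
    exact mem_inside.mpr ⟨mem_union_right _ this.1, mem_union_right _ this.2⟩)
  refine merge h3 hγ hne _ F rfl f1 f3 (fun a b ha hb => ?_) (Or.inl fun e he => f4 e (f1 he))
  rw [Finset.disjoint_left]
  intro e he he'
  have k1 := mem_inside.mp (f2 he)
  have k2 := mem_inside.mp (mem_inter.mp he').2
  have k3 := union_subset (hγ.1 a (f3 a ha)).2.1 (hγ.1 b (f3 b hb)).2.1
  exact mem_compl.mp (mem_inter.mp he').1
    (mem_inside.mpr ⟨mem_inter.mpr ⟨k1.1, k3 k2.1⟩, mem_inter.mpr ⟨k1.2, k3 k2.2⟩⟩)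

omit [Fintype V] [DecidableEq E] in
/-- a circuit meets every cut in an even number of edges -/
lemma even_cut {C : Finset E} (hC : IsCircuit s t C) {X : Finset V} (hX : cut s t X ⊆ C) :
    Even (cut s t X).card := by
  have h1 := sum_deg' (s := s) (t := t) C X
  have h2 : C.filter (fun e => ¬ (s e ∈ X ↔ t e ∈ X)) = cut s t X := by
    ext e
    rw [mem_filter, mem_cut]
    exact ⟨fun h => h.2, fun h => ⟨hX (mem_cut.mpr h), h⟩⟩
  have h3 : Even (∑ v ∈ X, deg s t C v) :=
    even_sum _ fun v _ => by rcases hC.2.1 v with h | h <;> simp [h]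
  rw [h1, h2, Nat.even_add] at h3
  exact h3.mp (even_two_mul _)

/-- a small independent set of edges contains no nonempty cut -/
lemma cut_empty (h3 : ∀ v, deg s t univ v = 3) {k : ℕ} (hG : CyclicallyEdgeConnected s t k)
    {S : Finset E} (hS : S.card < k) (hind : ∀ v, deg s t S v ≤ 1) {X : Finset V}
    (hX : cut s t X ⊆ S) : cut s t X = ∅ := by
  have key : ∀ Y : Finset V, cut s t Y ⊆ S → Y.card ≤ (inside s t Y).card := by
    intro Y hY
    have h1 := sum_deg' (s := s) (t := t) S Y
    have h2 : (cut s t Y).card ≤ (S.filter fun e => ¬ (s e ∈ Y ↔ t e ∈ Y)).card :=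
      card_le_card fun e he => mem_filter.mpr ⟨hY he, mem_cut.mp he⟩
    have h4 : ∑ v ∈ Y, deg s t S v ≤ Y.card := by
      rw [card_eq_sum_ones]; exact sum_le_sum fun v _ => hind v
    have := cubic_count h3 Y
    omega
  by_contra hne
  obtain ⟨e, he⟩ := nonempty_iff_ne_empty.mpr hne
  rw [mem_cut] at he
  have c3 : cut s t Xᶜ = cut s t X := by ext e; simp [not_iff_not]
  obtain ⟨D, h4, h5⟩ := exists_circuit_of_card h3 (Y := Xᶜ)
    (by by_cases h : s e ∈ X
        · exact ⟨t e, by rw [mem_compl]; tauto⟩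
        · exact ⟨s e, mem_compl.mpr h⟩) (key _ (c3 ▸ hX))
  have := cut_ge_of_card h3 hG (Y := X)
    (by by_cases h : s e ∈ X
        · exact ⟨_, h⟩
        · exact ⟨t e, by tauto⟩) (key _ hX) h5 h4
  have := card_le_card hX
  omega

end Pool.Agent.Lib.MP_c13936_co
end
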