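import Mathlib

/-! Finite multigraphs (loops and parallel edges allowed): the edge `e : E` has the ends
`s e` and `t e`; none of the notions below depends on which end is called `s e`. -/

open Finset

namespace Pool.Agent.Lib.MP_c13936_co

variable {V E : Type*} [DecidableEq V] (s t : E → V)

/-- the degree of `v` in the edge set `F` (a loop counts twice) -/
def deg (F : Finset E) (v : V) : ℕ :=
  (F.filter (fun e => s e = v)).card + (F.filter (fun e => t e = v)).card

/-- some edge of `F` has the ends `u` and `v` -/
def Link (F : Finset E) (u v : V) : Prop :=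
  ∃ e ∈ F, (s e = u ∧ t e = v) ∨ (s e = v ∧ t e = u)

/-- `u` and `v` are joined by a walk using edges of `F` -/
def Reach (F : Finset E) (u v : V) : Prop := Relation.ReflTransGen (Link s t F) u v

/-- a circuit: the edge set of a connected 2-regular subgraph -/
def IsCircuit (C : Finset E) : Prop :=
  C.Nonempty ∧ (∀ v, deg s t C v = 0 ∨ deg s t C v = 2) ∧
    ∀ e ∈ C, ∀ e' ∈ C, Reach s t C (s e) (s e')

/-- the edge cut of `X`: edges with exactly one end in `X` -/
def cut [Fintype E] (X : Finset V) : Finset E := univ.filter fun e => ¬ (s e ∈ X ↔ t e ∈ X)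

/-- a bond: a minimal nonempty edge cut -/
def IsBond [Fintype E] (B : Finset E) : Prop :=
  Minimal (fun F : Finset E => F.Nonempty ∧ ∃ X : Finset V, F = cut s t X) B

/-- cyclic `k`-edge-connectivity: the graph is connected, has two vertex-disjoint circuits and
has no bond `B` with `|B| < k` such that every component of `G - B` contains a circuit -/
def CyclicallyEdgeConnected [Fintype E] [DecidableEq E] (k : ℕ) : Prop :=
  (∀ u v, Reach s t univ u v) ∧
  (∃ C D, IsCircuit s t C ∧ IsCircuit s t D ∧ ∀ v, deg s t C v = 0 ∨ deg s t D v = 0) ∧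
  ¬ ∃ B, IsBond s t B ∧ B.card < k ∧
    ∀ v, ∃ C, IsCircuit s t C ∧ C ⊆ Bᶜ ∧ ∀ e ∈ C, Reach s t Bᶜ v (s e)

end Pool.Agent.Lib.MP_c13936_co
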