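import Mathlib
import Pool.Agent.Lib.MP_c13936_co.Defs

-- part Pool.Agent.Lib.MP_c13936_co.Minor
section

/-! Connected sets, contractions, Menger's theorem and the Robertson-Seymour rooted clique
minor lemma, for vertex subsets of a simple graph. -/

open Finset Relation

namespace Pool.Agent.Lib.MP_c13936_co

variable {V : Type*} [DecidableEq V]

/-- one step inside `X` -/
def Step (G : SimpleGraph V) (X : Finset V) (u v : V) : Prop := G.Adj u v ∧ u ∈ X ∧ v ∈ X

/-- `X` induces a connected subgraph (or is empty) -/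
def Conn (G : SimpleGraph V) (X : Finset V) : Prop :=
  ∀ a ∈ X, ∀ b ∈ X, ReflTransGen (Step G X) a b

/-- some edge joins `X` and `Y` -/
def Touch (G : SimpleGraph V) (X Y : Finset V) : Prop := ∃ a ∈ X, ∃ b ∈ Y, G.Adj a b

/-- `(A, B)` is a separation of `G[U]` -/
def Sep (G : SimpleGraph V) (U A B : Finset V) : Prop :=
  A ∪ B = U ∧ ∀ a ∈ A, a ∉ B → ∀ b ∈ B, b ∉ A → ¬ G.Adj a b

omit [DecidableEq V] in
lemma Step.symm {G : SimpleGraph V} {X : Finset V} {u v : V} (h : Step G X u v) : Step G X v u :=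
  ⟨h.1.symm, h.2.2, h.2.1⟩

omit [DecidableEq V] in
lemma rtg_symm {α : Type*} {r : α → α → Prop} (hr : ∀ a b, r a b → r b a) {a b : α}
    (h : ReflTransGen r a b) : ReflTransGen r b a := by
  induction h with
  | refl => exact ReflTransGen.refl
  | tail _ h ih => exact ReflTransGen.head (hr _ _ h) ih

omit [DecidableEq V] in
lemma step_mono {G H : SimpleGraph V} {X Y : Finset V} (hXY : X ⊆ Y)
    (h : ∀ u ∈ X, ∀ v ∈ X, G.Adj u v → H.Adj u v) {a b : V}
    (hab : ReflTransGen (Step G X) a b) : ReflTransGen (Step H Y) a b := by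
  induction hab with
  | refl => exact ReflTransGen.refl
  | tail _ huv ih => exact ih.tail ⟨h _ huv.2.1 _ huv.2.2 huv.1, hXY huv.2.1, hXY huv.2.2⟩

omit [DecidableEq V] in
lemma Conn.mono {G H : SimpleGraph V} {X : Finset V} (hX : Conn G X)
    (h : ∀ u ∈ X, ∀ v ∈ X, G.Adj u v → H.Adj u v) : Conn H X :=
  fun a ha b hb => step_mono Subset.rfl h (hX a ha b hb)

omit [DecidableEq V] in
lemma conn_of_root {G : SimpleGraph V} {X : Finset V} (x : V)
    (h : ∀ a ∈ X, ReflTransGen (Step G X) a x) : Conn G X :=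
  fun a ha b hb => (h a ha).trans (rtg_symm (fun _ _ => Step.symm) (h b hb))

omit [DecidableEq V] in
lemma conn_singleton (G : SimpleGraph V) (x : V) : Conn G {x} := by
  intro a ha b hb
  rw [mem_singleton] at ha hb
  rw [ha, hb]

lemma Conn.union {G : SimpleGraph V} {X Y : Finset V} (hX : Conn G X) (hY : Conn G Y) {z : V}
    (h1 : z ∈ X) (h2 : z ∈ Y) : Conn G (X ∪ Y) := by
  refine conn_of_root z fun a ha => ?_
  rcases mem_union.mp ha with ha | ha
  · exact step_mono subset_union_left (fun _ _ _ _ h => h) (hX a ha z h1)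
  · exact step_mono subset_union_right (fun _ _ _ _ h => h) (hY a ha z h2)

lemma Conn.union_touch {G : SimpleGraph V} {X Y : Finset V} (hX : Conn G X) (hY : Conn G Y)
    (h : Touch G X Y) : Conn G (X ∪ Y) := by
  obtain ⟨x, hx, y, hy, hxy⟩ := h
  refine conn_of_root y fun a ha => ?_
  rcases mem_union.mp ha with ha | ha
  · exact (step_mono subset_union_left (fun _ _ _ _ h => h) (hX a ha x hx)).tail
      ⟨hxy, mem_union_left _ hx, mem_union_right _ hy⟩
  · exact step_mono subset_union_right (fun _ _ _ _ h => h) (hY a ha y hy)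

omit [DecidableEq V] in
/-- a connected set cannot be split -/
lemma Conn.closed {G : SimpleGraph V} {X : Finset V} (hX : Conn G X) (P : V → Prop) {a : V}
    (ha : a ∈ X) (hP : P a) (h : ∀ u ∈ X, ∀ v ∈ X, G.Adj u v → P u → P v) : ∀ b ∈ X, P b := by
  intro b hb
  have := hX a ha b hb
  clear hb
  induction this with
  | refl => exact hP
  | tail _ huv ih => exact h _ huv.2.1 _ huv.2.2 huv.1 ih

/-- lifting connected sets along a quotient map with connected fibres -/
lemma Conn.lift {G H : SimpleGraph V} {U X : Finset V} (f : V → V)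
    (hf : ∀ x, Conn G (U.filter (f · = x)))
    (hH : ∀ x ∈ X, ∀ y ∈ X, H.Adj x y → ∃ u ∈ U, ∃ v ∈ U, f u = x ∧ f v = y ∧ G.Adj u v)
    (hX : Conn H X) : Conn G (U.filter (f · ∈ X)) := by
  have fib : ∀ a ∈ U, ∀ b ∈ U, f a ∈ X → f a = f b →
      ReflTransGen (Step G (U.filter (f · ∈ X))) a b := by
    intro a ha b hb h1 h2
    refine step_mono (X := U.filter (f · = f a)) ?_ (fun _ _ _ _ h => h)
      (hf (f a) a (by simp [ha]) b (by simp [hb, h2]))
    intro u hu
    rw [mem_filter] at hu ⊢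
    exact ⟨hu.1, hu.2 ▸ h1⟩
  intro a ha b hb
  rw [mem_filter] at ha hb
  have key : ∀ y, ReflTransGen (Step H X) (f a) y → ∀ b ∈ U, f b = y →
      ReflTransGen (Step G (U.filter (f · ∈ X))) a b := by
    intro y hy
    induction hy with
    | refl => intro b hb h; exact fib a ha.1 b hb ha.2 h.symm
    | tail _ hxy ih =>
      intro b hb h
      obtain ⟨u, hu, v, hv, h1, h2, huv⟩ := hH _ hxy.2.1 _ hxy.2.2 hxy.1
      exact ((ih u hu h1).tail ⟨huv, by simp [hu, h1, hxy.2.1], by simp [hv, h2, hxy.2.2]⟩).trans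
        (fib v hv b hb (h2 ▸ hxy.2.2) (h2.trans h.symm))
  exact key _ (hX _ ha.2 _ hb.2) b hb.1 rfl

/-- identify `y` with `x` -/
def idn (x y v : V) : V := if v = y then x else v

/-- contraction of `y` into `x` -/
def contr (G : SimpleGraph V) (x y : V) : SimpleGraph V where
  Adj a b := a ≠ b ∧ ∃ u v, idn x y u = a ∧ idn x y v = b ∧ G.Adj u v
  symm := ⟨fun _ _ ⟨h, u, v, h1, h2, h3⟩ => ⟨h.symm, v, u, h2, h1, h3.symm⟩⟩
  loopless := ⟨fun _ h => h.1 rfl⟩

lemma idn_of_ne {x y v : V} (h : v ≠ y) : idn x y v = v := if_neg h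

@[simp] lemma idn_self (x y : V) : idn x y y = x := if_pos rfl

lemma idn_mem {x y : V} {U : Finset V} (hx : x ∈ U) (hxy : x ≠ y) {v : V} (hv : v ∈ U) :
    idn x y v ∈ U.erase y := by
  by_cases h : v = y
  · simp [h, hx, hxy]
  · simp [idn_of_ne h, h, hv]

lemma mem_of_idn_mem {x y : V} {U : Finset V} (hy : y ∈ U) {v : V}
    (hv : idn x y v ∈ U.erase y) : v ∈ U := by
  by_cases h : v = y
  · exact h ▸ hy
  · rw [idn_of_ne h] at hv; exact mem_of_mem_erase hv

lemma contr_fibre {G : SimpleGraph V} {x y : V} (hxy : G.Adj x y) {U : Finset V} (hx : x ∈ U)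
    (z : V) : Conn G (U.filter (idn x y · = z)) := by
  refine conn_of_root z fun a ha => ?_
  rw [mem_filter] at ha
  by_cases h : a = y
  · subst h
    rw [idn_self] at ha
    rw [← ha.2]
    exact ReflTransGen.single ⟨hxy.symm, by simp [ha.1], by simp [hx, idn_of_ne hxy.ne]⟩
  · rw [idn_of_ne h] at ha
    rw [ha.2]

lemma Conn.lift_contr {G : SimpleGraph V} {x y : V} (hxy : G.Adj x y) {U X : Finset V}
    (hx : x ∈ U) (hy : y ∈ U) (hXU : X ⊆ U.erase y) (hX : Conn (contr G x y) X) :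
    Conn G (U.filter (idn x y · ∈ X)) := by
  refine Conn.lift _ (contr_fibre hxy hx) ?_ hX
  rintro a ha b hb ⟨-, u, v, h1, h2, h3⟩
  exact ⟨u, mem_of_idn_mem hy (hXU (h1 ▸ ha)), v, mem_of_idn_mem hy (hXU (h2 ▸ hb)), h1, h2, h3⟩

lemma Touch.lift_contr {G : SimpleGraph V} {x y : V} {U X Y : Finset V}
    (hy : y ∈ U) (hXU : X ⊆ U.erase y) (hYU : Y ⊆ U.erase y) (h : Touch (contr G x y) X Y) :
    Touch G (U.filter (idn x y · ∈ X)) (U.filter (idn x y · ∈ Y)) := by
  obtain ⟨a, ha, b, hb, -, u, v, h1, h2, h3⟩ := h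
  exact ⟨u, mem_filter.mpr ⟨mem_of_idn_mem hy (hXU (h1 ▸ ha)), h1 ▸ ha⟩, v,
    mem_filter.mpr ⟨mem_of_idn_mem hy (hYU (h2 ▸ hb)), h2 ▸ hb⟩, h3⟩

lemma disjoint_lift {U X Y : Finset V} (f : V → V) (h : Disjoint X Y) :
    Disjoint (U.filter (f · ∈ X)) (U.filter (f · ∈ Y)) := by
  rw [disjoint_left] at h ⊢
  intro a ha hb
  exact h (mem_filter.mp ha).2 (mem_filter.mp hb).2

lemma Conn.image_contr {G : SimpleGraph V} (x y : V) {X : Finset V} (hX : Conn G X) :
    Conn (contr G x y) (X.image (idn x y)) := by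
  intro a' ha' b' hb'
  obtain ⟨a, ha, rfl⟩ := mem_image.mp ha'
  obtain ⟨b, hb, rfl⟩ := mem_image.mp hb'
  have := hX a ha b hb
  clear hb hb'
  induction this with
  | refl => exact ReflTransGen.refl
  | @tail u v _ huv ih =>
    by_cases h : idn x y u = idn x y v
    · exact h ▸ ih
    · exact ih.tail ⟨⟨h, u, v, rfl, rfl, huv.1⟩, mem_image_of_mem _ huv.2.1,
        mem_image_of_mem _ huv.2.2⟩

/-- pulling back a separation of a contraction -/
lemma Sep.lift_contr {G : SimpleGraph V} {x y : V} (hxy : x ≠ y) {U A B : Finset V}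
    (hx : x ∈ U) (h : Sep (contr G x y) (U.erase y) A B) :
    Sep G U (U.filter (idn x y · ∈ A)) (U.filter (idn x y · ∈ B)) := by
  constructor
  · ext v
    simp only [mem_union, mem_filter]
    constructor
    · rintro (h | h) <;> exact h.1
    · intro hv
      have := idn_mem hx hxy hv
      rw [← h.1, mem_union] at this
      tauto
  · intro a ha ha' b hb hb' hab
    simp only [mem_filter] at ha ha' hb hb'
    have h1 : idn x y a ∉ B := fun h => ha' ⟨ha.1, h⟩
    have h2 : idn x y b ∉ A := fun h => hb' ⟨hb.1, h⟩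
    exact h.2 _ ha.2 h1 _ hb.2 h2 ⟨fun h => h1 (h ▸ hb.2), a, b, rfl, rfl, hab⟩

lemma card_lift_le {x y : V} {U X : Finset V} :
    (U.filter (idn x y · ∈ X)).card ≤ X.card + 1 := by
  refine le_trans (card_le_card (t := insert y X) ?_) (card_insert_le _ _)
  intro v hv
  by_cases h : v = y
  · simp [h]
  · have := (mem_filter.mp hv).2
    rw [idn_of_ne h] at this
    simp [this]

lemma card_lift_le' {x y : V} {U X : Finset V} (hx : x ∉ X) :
    (U.filter (idn x y · ∈ X)).card ≤ X.card := by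
  refine card_le_card ?_
  intro v hv
  have := (mem_filter.mp hv).2
  by_cases h : v = y
  · rw [h, idn_self] at this; exact absurd this hx
  · rwa [idn_of_ne h] at this

open Classical in
/-- ordered pairs of adjacent vertices of `U` -/
noncomputable def arcs (G : SimpleGraph V) (U : Finset V) : Finset (V × V) :=
  (U ×ˢ U).filter fun p => G.Adj p.1 p.2

omit [DecidableEq V] in
@[simp] lemma mem_arcs {G : SimpleGraph V} {U : Finset V} {p : V × V} :
    p ∈ arcs G U ↔ p.1 ∈ U ∧ p.2 ∈ U ∧ G.Adj p.1 p.2 := by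
  simp [arcs, and_assoc]

lemma Sep.combine_left {G : SimpleGraph V} {U A B A' B' : Finset V} (h : Sep G U A B)
    (h' : Sep G A A' B') (hZ : A ∩ B ⊆ B') :
    Sep G U A' (B' ∪ B) ∧ A' ∩ (B' ∪ B) = A' ∩ B' := by
  have hA : ∀ v, v ∈ A ↔ v ∈ A' ∨ v ∈ B' := fun v => by rw [← h'.1, mem_union]
  refine ⟨⟨by rw [← union_assoc, h'.1, h.1], ?_⟩, ?_⟩
  · intro a ha ha' b hb hb' hab
    rw [mem_union] at ha' hb
    by_cases hbA : b ∈ A
    · exact h'.2 a ha (fun h => ha' (Or.inl h)) b (((hA b).mp hbA).resolve_left hb') hb' hab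
    · refine h.2 a ((hA a).mpr (Or.inl ha)) (fun h => ha' (Or.inr h)) b ?_ hbA hab
      exact hb.resolve_left fun h => hbA ((hA b).mpr (Or.inr h))
  · ext v
    simp only [mem_inter, mem_union]
    constructor
    · rintro ⟨h1, h2 | h2⟩
      · exact ⟨h1, h2⟩
      · exact ⟨h1, hZ (mem_inter.mpr ⟨(hA v).mpr (Or.inl h1), h2⟩)⟩
    · tauto

lemma Sep.symm {G : SimpleGraph V} {U A B : Finset V} (h : Sep G U A B) : Sep G U B A :=
  ⟨by rw [union_comm, h.1], fun a ha ha' b hb hb' hab => h.2 b hb hb' a ha ha' hab.symm⟩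

lemma Sep.combine_right {G : SimpleGraph V} {U A B A' B' : Finset V} (h : Sep G U A B)
    (h' : Sep G B A' B') (hZ : A ∩ B ⊆ A') :
    Sep G U (A' ∪ A) B' ∧ (A' ∪ A) ∩ B' = A' ∩ B' := by
  have := h.symm.combine_left h'.symm (by rwa [inter_comm])
  exact ⟨this.1.symm, by rw [inter_comm, this.2, inter_comm]⟩

/-- `p` disjoint connected sets inside `U` meeting both `S` and `T` -/
def Linked (G : SimpleGraph V) (U S T : Finset V) (p : ℕ) : Prop :=
  ∃ P : Fin p → Finset V, (∀ i, P i ⊆ U ∧ Conn G (P i) ∧ (∃ s ∈ S, s ∈ P i) ∧ ∃ t ∈ T, t ∈ P i) ∧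
    ∀ i j, i ≠ j → Disjoint (P i) (P j)

/-- if one end set has exactly `p` elements the linkage is indexed by it -/
lemma Linked.index {G : SimpleGraph V} {U S T : Finset V} {p : ℕ} (h : Linked G U S T p)
    (hS : S.card = p) :
    ∃ Q : V → Finset V, (∀ s ∈ S, s ∈ Q s ∧ Q s ⊆ U ∧ Conn G (Q s) ∧ ∃ t ∈ T, t ∈ Q s) ∧
      ∀ s ∈ S, ∀ s' ∈ S, s ≠ s' → Disjoint (Q s) (Q s') := by
  obtain ⟨P, h1, h2⟩ := h
  choose σ hσ1 hσ2 using fun i => (h1 i).2.2.1
  have hinj : Function.Injective σ := by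
    intro i j hij
    by_contra hne
    exact disjoint_left.mp (h2 i j hne) (hσ2 i) (hij ▸ hσ2 j)
  have hsurj : ∀ s ∈ S, ∃ i, σ i = s := by
    have : univ.image σ = S := by
      apply eq_of_subset_of_card_le
      · intro s hs
        obtain ⟨i, -, rfl⟩ := mem_image.mp hs
        exact hσ1 i
      · rw [card_image_of_injective _ hinj]; simp [hS]
    intro s hs
    rw [← this] at hs
    obtain ⟨i, -, rfl⟩ := mem_image.mp hs
    exact ⟨i, rfl⟩
  choose τ hτ using hsurj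
  refine ⟨fun s => if hs : s ∈ S then P (τ s hs) else ∅, fun s hs => ?_, fun s hs s' hs' hne => ?_⟩
  · simp only [dif_pos hs]
    refine ⟨?_, (h1 _).1, (h1 _).2.1, (h1 _).2.2.2⟩
    have := hσ2 (τ s hs)
    rwa [hτ] at this
  · simp only [dif_pos hs, dif_pos hs']
    refine h2 _ _ fun h => hne ?_
    rw [← hτ s hs, ← hτ s' hs', h]

omit [DecidableEq V] in
lemma Linked.symm {G : SimpleGraph V} {U S T : Finset V} {p : ℕ} (h : Linked G U S T p) :
    Linked G U T S p := by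
  obtain ⟨P, h1, h2⟩ := h
  exact ⟨P, fun i => ⟨(h1 i).1, (h1 i).2.1, (h1 i).2.2.2, (h1 i).2.2.1⟩, h2⟩

omit [DecidableEq V] in
lemma Linked.mono {G H : SimpleGraph V} (hGH : G ≤ H) {U S T : Finset V} {p : ℕ}
    (h : Linked G U S T p) : Linked H U S T p := by
  obtain ⟨P, h1, h2⟩ := h
  exact ⟨P, fun i => ⟨(h1 i).1, (h1 i).2.1.mono fun _ _ _ _ h => hGH h, (h1 i).2.2⟩, h2⟩

lemma card_arcs_contr_lt {G : SimpleGraph V} {x y : V} (hxy : G.Adj x y) {U : Finset V}
    (hx : x ∈ U) (hy : y ∈ U) : (arcs (contr G x y) (U.erase y)).card < (arcs G U).card := by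
  have h1 : arcs (contr G x y) (U.erase y) ⊆
      ((arcs G U).erase (x, y)).image (Prod.map (idn x y) (idn x y)) := by
    rintro ⟨a, b⟩ hab
    rw [mem_arcs] at hab
    obtain ⟨ha, hb, hne, u, v, h1, h2, h3⟩ := hab
    simp only at ha hb hne h1 h2
    refine mem_image.mpr ⟨(u, v), mem_erase.mpr ⟨?_, mem_arcs.mpr
      ⟨mem_of_idn_mem hy (h1 ▸ ha), mem_of_idn_mem hy (h2 ▸ hb), h3⟩⟩, by simp [h1, h2]⟩
    intro h
    rw [Prod.mk.injEq] at h
    rw [h.1, idn_of_ne hxy.ne] at h1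
    rw [h.2, idn_self] at h2
    exact hne (h1.symm.trans h2)
  exact lt_of_le_of_lt ((card_le_card h1).trans card_image_le)
    (card_erase_lt_of_mem (mem_arcs.mpr ⟨hx, hy, hxy⟩))

lemma card_arcs_delete_lt {G : SimpleGraph V} {x y : V} (hxy : G.Adj x y) {U A : Finset V}
    (hx : x ∈ U) (hy : y ∈ U) (hA : A ⊆ U) :
    (arcs (G.deleteEdges {s(x, y)}) A).card < (arcs G U).card := by
  refine lt_of_le_of_lt (card_le_card (t := (arcs G U).erase (x, y)) ?_)
    (card_erase_lt_of_mem (mem_arcs.mpr ⟨hx, hy, hxy⟩))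
  rintro ⟨a, b⟩ hab
  rw [mem_arcs, SimpleGraph.deleteEdges_adj] at hab
  refine mem_erase.mpr ⟨?_, mem_arcs.mpr ⟨hA hab.1, hA hab.2.1, hab.2.2.1⟩⟩
  intro h
  rw [Prod.mk.injEq] at h
  exact hab.2.2.2 (by simp [h.1, h.2])

lemma Sep.of_delete {G : SimpleGraph V} {x y : V} {U A B : Finset V}
    (h : Sep (G.deleteEdges {s(x, y)}) U A B) (hx : x ∈ B) (hy : y ∈ B) : Sep G U A B := by
  refine ⟨h.1, fun a ha ha' b hb hb' hab => h.2 a ha ha' b hb hb' ?_⟩
  rw [SimpleGraph.deleteEdges_adj]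
  refine ⟨hab, fun hm => ?_⟩
  rw [Set.mem_singleton_iff, Sym2.eq_iff] at hm
  rcases hm with hm | hm
  · exact ha' (hm.1 ▸ hx)
  · exact ha' (hm.1 ▸ hy)

lemma Sep.left_subset {G : SimpleGraph V} {U A B : Finset V} (h : Sep G U A B) : A ⊆ U :=
  h.1 ▸ subset_union_left

lemma Sep.right_subset {G : SimpleGraph V} {U A B : Finset V} (h : Sep G U A B) : B ⊆ U :=
  h.1 ▸ subset_union_right

lemma filter_inter_lift (f : V → V) (U A B : Finset V) :
    U.filter (f · ∈ A) ∩ U.filter (f · ∈ B) = U.filter (f · ∈ A ∩ B) := by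
  ext v; simp only [mem_inter, mem_filter]; tauto

/-- Menger's theorem -/
theorem menger (p : ℕ) : ∀ (n : ℕ) (G : SimpleGraph V) (U S T : Finset V),
    (arcs G U).card = n → S ⊆ U → T ⊆ U →
    (∀ A B, Sep G U A B → S ⊆ A → T ⊆ B → p ≤ (A ∩ B).card) → Linked G U S T p := by
  intro n
  induction n using Nat.strong_induction_on with
  | _ n ih =>
  intro G U S T hn hS hT h
  by_cases h0 : arcs G U = ∅
  · have h1 := h (S ∪ (U \ T)) T ⟨?_, ?_⟩ subset_union_left Subset.rfl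
    · have h2 : (S ∪ (U \ T)) ∩ T = S ∩ T := by ext v; simp only [mem_inter, mem_union, mem_sdiff]; tauto
      rw [h2] at h1
      obtain ⟨W, hW1, hW2⟩ := exists_subset_card_eq h1
      let e := W.equivFinOfCardEq hW2
      refine ⟨fun i => {(e.symm i).1}, fun i => ?_, fun i j hij => ?_⟩
      · have := mem_inter.mp (hW1 (e.symm i).2)
        exact ⟨by simpa using hS this.1, conn_singleton _ _, ⟨_, this.1, by simp⟩,
          ⟨_, this.2, by simp⟩⟩
      · rw [disjoint_singleton]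
        exact fun h => hij (e.symm.injective (Subtype.ext h))
    · ext v
      simp only [mem_union, mem_sdiff]
      constructor
      · rintro ((h | h) | h)
        exacts [hS h, h.1, hT h]
      · tauto
    · intro a ha _ b hb _ hab
      have : (a, b) ∈ arcs G U := mem_arcs.mpr ⟨(union_subset hS sdiff_subset) ha, hT hb, hab⟩
      simp [h0] at this
  obtain ⟨⟨x, y⟩, hxy⟩ := nonempty_iff_ne_empty.mpr h0
  rw [mem_arcs] at hxy
  obtain ⟨hx, hy, hxy⟩ := hxy
  simp only at hx hy hxy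
  have him : ∀ S : Finset V, S ⊆ U → S.image (idn x y) ⊆ U.erase y := by
    intro S hS v hv
    obtain ⟨w, hw, rfl⟩ := mem_image.mp hv
    exact idn_mem hx hxy.ne (hS hw)
  by_cases h1 : ∀ A B, Sep (contr G x y) (U.erase y) A B → S.image (idn x y) ⊆ A →
      T.image (idn x y) ⊆ B → p ≤ (A ∩ B).card
  · obtain ⟨P, hP1, hP2⟩ := ih _ (hn ▸ card_arcs_contr_lt hxy hx hy) _ _ _ _ rfl (him S hS)
      (him T hT) h1
    refine ⟨fun i => U.filter (idn x y · ∈ P i), fun i => ?_, fun i j hij =>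
      disjoint_lift _ (hP2 i j hij)⟩
    obtain ⟨h2, h3, ⟨s0, hs0, hs'⟩, t0, ht0, ht'⟩ := hP1 i
    obtain ⟨s, hs, rfl⟩ := mem_image.mp hs0
    obtain ⟨t, ht, rfl⟩ := mem_image.mp ht0
    exact ⟨filter_subset _ _, h3.lift_contr hxy hx hy h2, ⟨s, hs, mem_filter.mpr ⟨hS hs, hs'⟩⟩,
      t, ht, mem_filter.mpr ⟨hT ht, ht'⟩⟩
  push Not at h1
  obtain ⟨A', B', hsep', hA', hB', hlt⟩ := h1
  have hsep := hsep'.lift_contr hxy.ne hx
  set A := U.filter (idn x y · ∈ A') with hA
  set B := U.filter (idn x y · ∈ B') with hB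
  have hSA : S ⊆ A := fun s hs => mem_filter.mpr ⟨hS hs, hA' (mem_image_of_mem _ hs)⟩
  have hTB : T ⊆ B := fun s hs => mem_filter.mpr ⟨hT hs, hB' (mem_image_of_mem _ hs)⟩
  have h2 := h A B hsep hSA hTB
  have h3 : A ∩ B = U.filter (idn x y · ∈ A' ∩ B') := filter_inter_lift _ _ _ _
  have hxm : x ∈ A' ∩ B' := by
    by_contra hcon
    have := card_lift_le' (y := y) (U := U) hcon
    rw [← h3] at this
    omega
  have hcard : (A ∩ B).card = p := by
    have := card_lift_le (x := x) (y := y) (U := U) (X := A' ∩ B')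
    rw [← h3] at this
    omega
  have hxX : x ∈ A ∩ B := by rw [h3]; exact mem_filter.mpr ⟨hx, by rwa [idn_of_ne hxy.ne]⟩
  have hyX : y ∈ A ∩ B := by rw [h3]; exact mem_filter.mpr ⟨hy, by rwa [idn_self]⟩
  have hle : G.deleteEdges {s(x, y)} ≤ G := G.deleteEdges_le _
  have L1 := (ih _ (hn ▸ card_arcs_delete_lt hxy hx hy hsep.left_subset) _ A S (A ∩ B) rfl hSA
    inter_subset_left (fun A1 B1 hs h4 h5 => by
      have := hsep.combine_left (hs.of_delete (h5 hxX) (h5 hyX)) h5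
      rw [← this.2]
      exact h _ _ this.1 h4 (hTB.trans subset_union_right))).mono hle
  have L2 := (ih _ (hn ▸ card_arcs_delete_lt hxy hx hy hsep.right_subset) _ B (A ∩ B) T rfl
    inter_subset_right hTB (fun A1 B1 hs h4 h5 => by
      have := hsep.combine_right (hs.symm.of_delete (h4 hxX) (h4 hyX)).symm h4
      rw [← this.2]
      exact h _ _ this.1 (hSA.trans subset_union_right) h5)).mono hle
  obtain ⟨Q, hQ1, hQ2⟩ := L1.symm.index hcard
  obtain ⟨Q', hQ1', hQ2'⟩ := L2.index hcard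
  let e := (A ∩ B).equivFinOfCardEq hcard
  refine ⟨fun i => Q (e.symm i) ∪ Q' (e.symm i), fun i => ?_, fun i j hij => ?_⟩
  · obtain ⟨a1, a2, a3, s, a4, a5⟩ := hQ1 _ (e.symm i).2
    obtain ⟨b1, b2, b3, t, b4, b5⟩ := hQ1' _ (e.symm i).2
    exact ⟨union_subset (a2.trans hsep.left_subset) (b2.trans hsep.right_subset),
      a3.union b3 a1 b1, ⟨s, a4, mem_union_left _ a5⟩, t, b4, mem_union_right _ b5⟩
  · have hne : (e.symm i).1 ≠ (e.symm j).1 := fun h => hij (e.symm.injective (Subtype.ext h))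
    have cross : ∀ u ∈ A ∩ B, ∀ w ∈ A ∩ B, u ≠ w → Disjoint (Q u) (Q' w) := by
      intro u hu w hw huw
      rw [disjoint_left]
      intro v hv hv'
      have hvX : v ∈ A ∩ B := mem_inter.mpr ⟨(hQ1 u hu).2.1 hv, (hQ1' w hw).2.1 hv'⟩
      by_cases hvu : v = u
      · exact disjoint_left.mp (hQ2' v hvX w hw (hvu ▸ huw)) (hQ1' v hvX).1 hv'
      · exact disjoint_left.mp (hQ2 v hvX u hu hvu) (hQ1 v hvX).1 hv
    rw [disjoint_union_left, disjoint_union_right, disjoint_union_right]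
    exact ⟨⟨hQ2 _ (e.symm i).2 _ (e.symm j).2 hne, cross _ (e.symm i).2 _ (e.symm j).2 hne⟩,
      (cross _ (e.symm j).2 _ (e.symm i).2 hne.symm).symm, hQ2' _ (e.symm i).2 _ (e.symm j).2 hne⟩

end Pool.Agent.Lib.MP_c13936_co
end

-- part Pool.Agent.Lib.MP_c13936_co.Basic
section

/-! Counting, parity, circuits, cuts and girth. -/

open Finset Relation

namespace Pool.Agent.Lib.MP_c13936_co

variable {V E : Type*} [DecidableEq V] [DecidableEq E] {s t : E → V}

/-- edges with both ends in `Y` -/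
def inside [Fintype E] (s t : E → V) (Y : Finset V) : Finset E :=
  univ.filter fun e => s e ∈ Y ∧ t e ∈ Y

omit [DecidableEq E] in
@[simp] lemma mem_inside [Fintype E] {Y : Finset V} {e : E} :
    e ∈ inside s t Y ↔ s e ∈ Y ∧ t e ∈ Y := by simp [inside]

omit [DecidableEq E] in
@[simp] lemma mem_cut [Fintype E] {Y : Finset V} {e : E} :
    e ∈ cut s t Y ↔ ¬ (s e ∈ Y ↔ t e ∈ Y) := by simp [cut]

omit [DecidableEq V] [DecidableEq E] in
lemma Link.symm {F : Finset E} {u v : V} (h : Link s t F u v) : Link s t F v u := by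
  obtain ⟨e, he, h⟩ := h
  exact ⟨e, he, h.symm⟩

omit [DecidableEq V] [DecidableEq E] in
lemma Reach.symm {F : Finset E} {u v : V} (h : Reach s t F u v) : Reach s t F v u :=
  rtg_symm (fun _ _ => Link.symm) h

omit [DecidableEq V] [DecidableEq E] in
lemma Reach.trans {F : Finset E} {u v w : V} (h : Reach s t F u v) (h' : Reach s t F v w) :
    Reach s t F u w := ReflTransGen.trans h h'

omit [DecidableEq V] [DecidableEq E] in
lemma Reach.refl (F : Finset E) (u : V) : Reach s t F u u := ReflTransGen.refl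

omit [DecidableEq V] [DecidableEq E] in
lemma Reach.edge {F : Finset E} {e : E} (he : e ∈ F) : Reach s t F (s e) (t e) :=
  ReflTransGen.single ⟨e, he, Or.inl ⟨rfl, rfl⟩⟩

omit [DecidableEq V] [DecidableEq E] in
/-- induction along reachability -/
lemma Reach.closed {F : Finset E} {u v : V} (h : Reach s t F u v) (P : V → Prop) (hu : P u)
    (hP : ∀ e ∈ F, (P (s e) ↔ P (t e))) : P v := by
  induction h with
  | refl => exact hu
  | tail _ hl ih =>
    obtain ⟨e, he, ⟨rfl, rfl⟩ | ⟨rfl, rfl⟩⟩ := hl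
    · exact (hP e he).mp ih
    · exact (hP e he).mpr ih

omit [DecidableEq V] [DecidableEq E] in
lemma reach_edge_iff {F : Finset E} {e : E} (he : e ∈ F) (u : V) :
    Reach s t F u (s e) ↔ Reach s t F u (t e) :=
  ⟨fun h => h.trans (Reach.edge he), fun h => h.trans (Reach.edge he).symm⟩

omit [DecidableEq V] [DecidableEq E] in
lemma Reach.mono' {F F' : Finset E} {u v : V} (h : Reach s t F u v)
    (hF : ∀ e ∈ F, Reach s t F u (s e) → e ∈ F') : Reach s t F' u v := by
  refine (h.closed (fun w => Reach s t F u w ∧ Reach s t F' u w) ⟨Reach.refl _ _, Reach.refl _ _⟩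
    fun e he => ⟨fun h => ⟨(reach_edge_iff he u).mp h.1, (reach_edge_iff (hF e he h.1) u).mp h.2⟩,
      fun h => ?_⟩).2
  have := (reach_edge_iff he u).mpr h.1
  exact ⟨this, (reach_edge_iff (hF e he this) u).mpr h.2⟩

omit [DecidableEq V] [DecidableEq E] in
lemma Reach.mono {F F' : Finset E} {u v : V} (h : Reach s t F u v) (hF : F ⊆ F') :
    Reach s t F' u v := h.mono' fun _ he _ => hF he

omit [DecidableEq E] in
lemma deg_mono {F F' : Finset E} (h : F ⊆ F') (v : V) : deg s t F v ≤ deg s t F' v :=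
  Nat.add_le_add (card_le_card (filter_subset_filter _ h)) (card_le_card (filter_subset_filter _ h))

lemma deg_union {F F' : Finset E} (h : Disjoint F F') (v : V) :
    deg s t (F ∪ F') v = deg s t F v + deg s t F' v := by
  simp only [deg, filter_union]
  rw [card_union_of_disjoint (disjoint_filter_filter h),
    card_union_of_disjoint (disjoint_filter_filter h)]
  ring

omit [DecidableEq E] in
lemma deg_eq_zero {F : Finset E} {v : V} : deg s t F v = 0 ↔ ∀ e ∈ F, s e ≠ v ∧ t e ≠ v := by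
  simp only [deg, Nat.add_eq_zero_iff, card_eq_zero, filter_eq_empty_iff]
  exact ⟨fun h e he => ⟨h.1 he, h.2 he⟩, fun h => ⟨fun e he => (h e he).1, fun e he => (h e he).2⟩⟩

omit [DecidableEq E] in
lemma sum_deg (F : Finset E) (Y : Finset V) :
    ∑ v ∈ Y, deg s t F v = (F.filter (fun e => s e ∈ Y)).card + (F.filter (fun e => t e ∈ Y)).card := by
  simp only [deg, sum_add_distrib]
  rw [sum_card_fiberwise_eq_card_filter, sum_card_fiberwise_eq_card_filter]

omit [DecidableEq E] in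
lemma sum_deg' (F : Finset E) (Y : Finset V) :
    ∑ v ∈ Y, deg s t F v = 2 * (F.filter (fun e => s e ∈ Y ∧ t e ∈ Y)).card +
      (F.filter (fun e => ¬ (s e ∈ Y ↔ t e ∈ Y))).card := by
  rw [sum_deg]
  simp only [card_filter, mul_sum, ← sum_add_distrib]
  refine sum_congr rfl fun e _ => ?_
  by_cases h1 : s e ∈ Y <;> by_cases h2 : t e ∈ Y <;> simp [h1, h2]

omit [DecidableEq E] in
lemma card_inc_le (F : Finset E) (Y : Finset V) :
    (F.filter (fun e => s e ∈ Y ∨ t e ∈ Y)).card ≤ ∑ v ∈ Y, deg s t F v := by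
  rw [sum_deg]
  simp only [card_filter, ← sum_add_distrib]
  refine sum_le_sum fun e _ => ?_
  by_cases h1 : s e ∈ Y <;> by_cases h2 : t e ∈ Y <;> simp [h1, h2]

omit [DecidableEq E] in
lemma cubic_count [Fintype E] (h3 : ∀ v, deg s t univ v = 3) (Y : Finset V) :
    3 * Y.card = 2 * (inside s t Y).card + (cut s t Y).card := by
  have := sum_deg' (s := s) (t := t) univ Y
  simp only [h3, sum_const, smul_eq_mul] at this
  rw [mul_comm, this]; rfl

omit [DecidableEq E] in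
/-- an odd vertex is joined to another odd vertex -/
lemma exists_odd_partner [Fintype V] {F : Finset E} {a : V} (ha : Odd (deg s t F a)) :
    ∃ b, b ≠ a ∧ Odd (deg s t F b) ∧ Reach s t F a b := by
  classical
  by_contra! hcon
  set K := univ.filter (Reach s t F a ·) with hK
  have haK : a ∈ K := by simp [hK, Reach.refl]
  have h1 := sum_deg' (s := s) (t := t) F K
  have h2 : F.filter (fun e => ¬ (s e ∈ K ↔ t e ∈ K)) = ∅ := by
    rw [filter_eq_empty_iff]
    intro e he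
    simpa [hK] using reach_edge_iff he a
  rw [h2, card_empty, add_zero, ← add_sum_erase K _ haK] at h1
  have h3 : Even (∑ v ∈ K.erase a, deg s t F v) := by
    refine even_sum _ fun v hv => ?_
    rw [mem_erase] at hv
    exact Nat.not_odd_iff_even.mp fun h => hcon v hv.1 h (by simpa [hK] using hv.2)
  have h4 := ha.add_even h3
  rw [h1] at h4
  exact Nat.not_odd_iff_even.mpr (even_two_mul _) h4

omit [DecidableEq E] in
/-- a component of an even edge set is a circuit -/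
lemma circuit_of_even [Fintype E] (h3 : ∀ v, deg s t univ v = 3) {F : Finset E}
    (hF : ∀ v, Even (deg s t F v)) {e₀ : E} (he₀ : e₀ ∈ F) :
    ∃ C ⊆ F, IsCircuit s t C ∧ ∀ e ∈ F, Reach s t F (s e₀) (s e) → e ∈ C := by
  classical
  set C := F.filter (fun e => Reach s t F (s e₀) (s e)) with hC
  have hm : ∀ e ∈ F, Reach s t F (s e₀) (s e) → e ∈ C := fun e he h => mem_filter.mpr ⟨he, h⟩
  refine ⟨C, filter_subset _ _, ⟨⟨e₀, hm _ he₀ (Reach.refl _ _)⟩, fun v => ?_,
    fun e he e' he' => ?_⟩, hm⟩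
  · by_cases hv : Reach s t F (s e₀) v
    · have h1 : deg s t C v = deg s t F v := by
        simp only [deg, hC, filter_filter]
        congr 2
        · exact filter_congr fun e _ => ⟨fun h => h.2, fun h => ⟨h ▸ hv, h⟩⟩
        · exact filter_congr fun e he =>
            ⟨fun h => h.2, fun h => ⟨(reach_edge_iff he _).mpr (h ▸ hv), h⟩⟩
      have h2 := deg_mono (s := s) (t := t) (subset_univ F) v
      obtain ⟨c, hc⟩ := hF v
      rw [h3] at h2
      omega
    · left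
      rw [deg_eq_zero]
      intro e he
      rw [mem_filter] at he
      exact ⟨fun h => hv (h ▸ he.2), fun h => hv (h ▸ (reach_edge_iff he.1 _).mp he.2)⟩
  · exact ((mem_filter.mp he).2.mono' hm).symm.trans ((mem_filter.mp he').2.mono' hm)

/-- the boundary vector of an edge -/
def vec (s t : E → V) (e : E) : V → ZMod 2 := Pi.single (s e) 1 + Pi.single (t e) 1

omit [DecidableEq E] in
lemma sum_vec (F : Finset E) (v : V) : (∑ e ∈ F, vec s t e) v = (deg s t F v : ZMod 2) := by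
  simp only [deg, card_filter, Finset.sum_apply, vec, Pi.add_apply, Pi.single_apply]
  push_cast
  rw [← sum_add_distrib]
  refine sum_congr rfl fun e _ => ?_
  simp only [eq_comm (a := v)]

omit [DecidableEq V] in
lemma add_self_vec (x : V → ZMod 2) : x + x = 0 := funext fun _ => CharTwo.add_self_eq_zero _

lemma zmod_two_cases : ∀ x : ZMod 2, x = 0 ∨ x = 1 := by decide

omit [DecidableEq E] in
lemma sum_smul_eq {ι M : Type*} [AddCommGroup M] [Module (ZMod 2) M] (F : Finset ι)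
    (g : ι → ZMod 2) (w : ι → M) :
    ∑ e ∈ F, g e • w e = ∑ e ∈ F.filter (fun e => g e = 1), w e := by
  rw [sum_filter]
  refine sum_congr rfl fun e _ => ?_
  rcases zmod_two_cases (g e) with h | h <;> simp [h]

lemma exists_even_of_card [Fintype E] {Y : Finset V} (hY : Y.Nonempty)
    (h : Y.card ≤ (inside s t Y).card) :
    ∃ F ⊆ inside s t Y, F.Nonempty ∧ ∀ v, Even (deg s t F v) := by
  obtain ⟨y₀, hy₀⟩ := hY
  have hnli : ¬ LinearIndepOn (ZMod 2) (vec s t) (inside s t Y) := by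
    intro hli
    classical
    set T := (Y.erase y₀).image
      (fun v => (Pi.single v 1 + Pi.single y₀ 1 : V → ZMod 2)) with hT
    have hmem : ∀ v ∈ Y, (Pi.single v 1 + Pi.single y₀ 1 : V → ZMod 2) ∈
        Submodule.span (ZMod 2) (T : Set (V → ZMod 2)) := by
      intro v hv
      by_cases h : v = y₀
      · rw [h, add_self_vec]; exact Submodule.zero_mem _
      · exact Submodule.subset_span (mem_coe.mpr (mem_image_of_mem _ (mem_erase.mpr ⟨h, hv⟩)))
    have h1 := linearIndependent_le_span_aux' _ hli (T : Set (V → ZMod 2)) (by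
      rintro _ ⟨⟨e, he⟩, rfl⟩
      have he' := mem_inside.mp (mem_coe.mp he)
      have := Submodule.add_mem _ (hmem _ he'.1) (hmem _ he'.2)
      rw [add_add_add_comm, add_self_vec, add_zero] at this
      exact this)
    have h2 : T.card ≤ (Y.erase y₀).card := card_image_le
    have h3 := card_erase_add_one hy₀
    simp only [coe_sort_coe, Fintype.card_coe] at h1
    omega
  rw [LinearIndepOn, Fintype.not_linearIndependent_iff] at hnli
  obtain ⟨g, hg, i, hi⟩ := hnli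
  rw [sum_smul_eq] at hg
  refine ⟨(univ.filter fun e => g e = 1).image Subtype.val, ?_, ?_, fun v => ?_⟩
  · intro e he
    obtain ⟨e', -, rfl⟩ := mem_image.mp he
    exact e'.2
  · exact ⟨i, mem_image_of_mem _ (by simpa using (zmod_two_cases _).resolve_left hi)⟩
  · rw [← ZMod.natCast_eq_zero_iff_even, ← sum_vec, sum_image (by simp), hg]
    rfl

lemma exists_circuit_of_card [Fintype E] (h3 : ∀ v, deg s t univ v = 3) {Y : Finset V}
    (hY : Y.Nonempty) (h : Y.card ≤ (inside s t Y).card) :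
    ∃ C ⊆ inside s t Y, IsCircuit s t C := by
  obtain ⟨F, h1, ⟨e, he⟩, h2⟩ := exists_even_of_card hY h
  obtain ⟨C, h4, h5, -⟩ := circuit_of_even h3 h2 he
  exact ⟨C, h4.trans h1, h5⟩

/-- cuts with a circuit on both sides are large -/
lemma cut_ge [Fintype V] [Fintype E] {k : ℕ} (hG : CyclicallyEdgeConnected s t k) {Y : Finset V}
    {C D : Finset E} (hC : IsCircuit s t C) (hD : IsCircuit s t D) (hCY : C ⊆ inside s t Y)
    (hDY : D ⊆ inside s t Yᶜ) : k ≤ (cut s t Y).card := by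
  classical
  obtain ⟨e₁, he₁⟩ := hC.1
  obtain ⟨e₂, he₂⟩ := hD.1
  set Y₁ := univ.filter (Reach s t (inside s t Y) (s e₁) ·) with hY₁
  have m1 : ∀ v, v ∈ Y₁ ↔ Reach s t (inside s t Y) (s e₁) v := by simp [hY₁]
  have hY₁Y : ∀ v ∈ Y₁, v ∈ Y := fun v hv => ((m1 v).mp hv).closed (· ∈ Y)
    (mem_inside.mp (hCY he₁)).1 fun e he => by simp [mem_inside.mp he]
  set Z := univ.filter (Reach s t (inside s t Y₁ᶜ) (s e₂) ·) with hZ
  have m2 : ∀ v, v ∈ Z ↔ Reach s t (inside s t Y₁ᶜ) (s e₂) v := by simp [hZ]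
  have hDY₁ : D ⊆ inside s t Y₁ᶜ := by
    intro e he
    have := hDY he
    simp only [mem_inside, mem_compl] at this ⊢
    exact ⟨fun h => this.1 (hY₁Y _ h), fun h => this.2 (hY₁Y _ h)⟩
  have hZY₁ : ∀ v ∈ Z, v ∉ Y₁ := fun v hv => ((m2 v).mp hv).closed (· ∉ Y₁)
    (mem_compl.mp (mem_inside.mp (hDY₁ he₂)).1) fun e he => by
      have := mem_inside.mp he
      simp only [mem_compl] at this
      simp [this]
  have hcl : ∀ e, s e ∉ Y₁ → t e ∉ Y₁ → (s e ∈ Z ↔ t e ∈ Z) := by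
    intro e h1 h2
    rw [m2, m2]
    exact reach_edge_iff (by simp [h1, h2]) _
  have hcl1 : ∀ e, s e ∈ Y → t e ∈ Y → (s e ∈ Y₁ ↔ t e ∈ Y₁) := by
    intro e h1 h2
    rw [m1, m1]
    exact reach_edge_iff (by simp [h1, h2]) _
  have hsub : cut s t Z ⊆ cut s t Y := by
    intro e he
    rw [mem_cut] at he ⊢
    exact (fun (a b c d e f : Prop) (h1 : ¬ c → ¬ d → (a ↔ b)) (h2 : e → f → (c ↔ d))
      (h3 : a → ¬ c) (h4 : b → ¬ d) (h5 : c → e) (h6 : d → f) (h7 : ¬ (a ↔ b)) =>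
      (by grind : ¬ (e ↔ f))) _ _ _ _ _ _ (hcl e) (hcl1 e) (hZY₁ _) (hZY₁ _) (hY₁Y _) (hY₁Y _) he
  have cZ : ∀ v ∈ Z, Reach s t (cut s t Z)ᶜ (s e₂) v := fun v hv =>
    ((m2 v).mp hv).mono' fun e he h => by
      have h1 : s e ∈ Z := (m2 _).mpr h
      have h2 : t e ∈ Z := (m2 _).mpr ((reach_edge_iff he _).mp h)
      simp [h1, h2]
  have cY₁ : ∀ v ∈ Y₁, Reach s t (cut s t Z)ᶜ (s e₁) v := fun v hv =>
    ((m1 v).mp hv).mono' fun e he h => by
      have h1 : s e ∉ Z := fun h' => hZY₁ _ h' ((m1 _).mpr h)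
      have h2 : t e ∉ Z := fun h' => hZY₁ _ h' ((m1 _).mpr ((reach_edge_iff he _).mp h))
      simp [h1, h2]
  have cZc : ∀ v, v ∉ Z → Reach s t (cut s t Z)ᶜ (s e₁) v := by
    intro v hv
    refine ((hG.1 (s e₁) v).closed (fun w => w ∈ Z ∨ Reach s t (cut s t Z)ᶜ (s e₁) w)
      (Or.inr (Reach.refl _ _)) fun e _ => ?_).resolve_left hv
    by_cases h1 : s e ∈ Z <;> by_cases h2 : t e ∈ Z
    · simp [h1, h2]
    · have : t e ∈ Y₁ := by
        by_contra h
        exact h2 ((hcl e (hZY₁ _ h1) h).mp h1)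
      simp [h1, cY₁ _ this]
    · have : s e ∈ Y₁ := by
        by_contra h
        exact h1 ((hcl e h (hZY₁ _ h2)).mpr h2)
      simp [h2, cY₁ _ this]
    · simp only [h1, h2, false_or]
      exact reach_edge_iff (by simp [h1, h2]) _
  have a1 : s e₁ ∉ Z := fun h => hZY₁ _ h ((m1 _).mpr (Reach.refl _ _))
  have a2 : s e₂ ∈ Z := (m2 _).mpr (Reach.refl _ _)
  by_contra hlt
  refine hG.2.2 ⟨cut s t Z, ⟨⟨?_, Z, rfl⟩, ?_⟩, (card_le_card hsub).trans_lt (not_le.mp hlt),
    fun v => ?_⟩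
  · by_contra hemp
    rw [not_nonempty_iff_eq_empty] at hemp
    refine a1 ((hG.1 (s e₂) (s e₁)).closed (· ∈ Z) a2 fun e _ => ?_)
    by_contra h
    have : e ∈ cut s t Z := mem_cut.mpr h
    simp [hemp] at this
  · rintro _ ⟨⟨e₀, he₀⟩, X, rfl⟩ hle e he
    have hX : ∀ e ∈ (cut s t Z)ᶜ, (s e ∈ X ↔ t e ∈ X) := by
      intro e he
      by_contra h
      exact mem_compl.mp he (hle (mem_cut.mpr h))
    have k1 : ∀ v ∈ Z, (v ∈ X ↔ s e₂ ∈ X) := fun v hv =>
      (cZ v hv).closed (fun w => w ∈ X ↔ s e₂ ∈ X) Iff.rfl fun e he => by rw [hX e he]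
    have k2 : ∀ v, v ∉ Z → (v ∈ X ↔ s e₁ ∈ X) := fun v hv =>
      (cZc v hv).closed (fun w => w ∈ X ↔ s e₁ ∈ X) Iff.rfl fun e he => by rw [hX e he]
    have h0 := hle he₀
    rw [mem_cut] at he he₀ h0 ⊢
    exact (fun (a b c d a' b' c' d' p q : Prop) (h1 : a → (a' ↔ p)) (h2 : b → (b' ↔ p))
      (h3 : ¬ a → (a' ↔ q)) (h4 : ¬ b → (b' ↔ q)) (h5 : c → (c' ↔ p)) (h6 : d → (d' ↔ p))
      (h7 : ¬ c → (c' ↔ q)) (h8 : ¬ d → (d' ↔ q)) (h9 : ¬ (a ↔ b)) (h10 : ¬ (c ↔ d))
      (h11 : ¬ (c' ↔ d')) => (by grind : ¬ (a' ↔ b'))) _ _ _ _ _ _ _ _ _ _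
      (k1 _) (k1 _) (k2 _) (k2 _) (k1 _) (k1 _) (k2 _) (k2 _) he h0 he₀
  · by_cases hv : v ∈ Z
    · have hDZ : ∀ e ∈ D, s e ∈ Z := fun e he => (m2 _).mpr ((hD.2.2 _ he₂ _ he).mono hDY₁)
      refine ⟨D, hD, fun e he => ?_, fun e he => (cZ v hv).symm.trans (cZ _ (hDZ e he))⟩
      have := mem_inside.mp (hDY₁ he)
      simp only [mem_compl] at this
      simpa using hcl e this.1 this.2
    · have hCZ : ∀ e ∈ C, s e ∈ Y₁ := fun e he => (m1 _).mpr ((hC.2.2 _ he₁ _ he).mono hCY)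
      refine ⟨C, hC, fun e he => ?_, fun e he => (cZc v hv).symm.trans (cY₁ _ (hCZ e he))⟩
      have h1 := mem_inside.mp (hCY he)
      have h2 : s e ∉ Z := fun h => hZY₁ _ h (hCZ e he)
      have h3 : t e ∉ Z := fun h => hZY₁ _ h ((hcl1 e h1.1 h1.2).mp (hCZ e he))
      simp [h2, h3]

lemma cut_ge_of_card [Fintype V] [Fintype E] (h3 : ∀ v, deg s t univ v = 3) {k : ℕ}
    (hG : CyclicallyEdgeConnected s t k) {Y : Finset V} (h1 : Y.Nonempty)
    (h2 : Y.card ≤ (inside s t Y).card) {D : Finset E} (hD : IsCircuit s t D)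
    (hDY : D ⊆ inside s t Yᶜ) : k ≤ (cut s t Y).card := by
  obtain ⟨C, h4, h5⟩ := exists_circuit_of_card h3 h1 h2
  exact cut_ge hG h5 hD h4 hDY

/-- small vertex sets span forests -/
lemma girth [Fintype V] [Fintype E] (h3 : ∀ v, deg s t univ v = 3) {k : ℕ}
    (hG : CyclicallyEdgeConnected s t k) {Y : Finset V} (hY : Y.Nonempty) (hk : Y.card < k) :
    (inside s t Y).card < Y.card := by
  classical
  by_contra hcon
  obtain ⟨C₀, h0, h0'⟩ := exists_circuit_of_card h3 hY (not_lt.mp hcon)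
  let vs : Finset E → Finset V := fun C => univ.filter (fun v => deg s t C v ≠ 0)
  have mvs : ∀ C v, v ∈ vs C ↔ ¬ ∀ e ∈ C, s e ≠ v ∧ t e ≠ v := by simp [vs, deg_eq_zero]
  obtain ⟨C, hC, hmin⟩ := exists_min_image (univ.filter (IsCircuit s t)) (fun C => (vs C).card)
    ⟨C₀, by simpa using h0'⟩
  simp only [mem_filter, mem_univ, true_and] at hC hmin
  have hin : C ⊆ inside s t (vs C) := fun e he =>
    mem_inside.mpr ⟨(mvs _ _).mpr fun h => (h e he).1 rfl, (mvs _ _).mpr fun h => (h e he).2 rfl⟩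
  have hg : (vs C).card < k := by
    refine lt_of_le_of_lt ((hmin C₀ h0').trans (card_le_card fun v hv => ?_)) hk
    by_contra hvY
    refine (mvs _ _).mp hv fun e he => ?_
    have := mem_inside.mp (h0 he)
    exact ⟨fun h => hvY (h ▸ this.1), fun h => hvY (h ▸ this.2)⟩
  have hCc : (vs C).card ≤ C.card := by
    have h1 := sum_deg (s := s) (t := t) C (vs C)
    have h2 : ∑ v ∈ vs C, deg s t C v = ∑ v ∈ vs C, 2 :=
      sum_congr rfl fun v hv => (hC.2.1 v).resolve_left (by simpa [vs] using hv)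
    have := card_filter_le C (fun e => s e ∈ vs C)
    have := card_filter_le C (fun e => t e ∈ vs C)
    simp only [sum_const, smul_eq_mul] at h2
    omega
  have c1 := cubic_count h3 (vs C)
  have c2 := cubic_count h3 (vs C)ᶜ
  have c3 : cut s t (vs C)ᶜ = cut s t (vs C) := by ext e; simp [not_iff_not]
  have c4 := card_le_card hin
  have c5 := card_add_card_compl (vs C)
  have hpos : 0 < (vs C).card := by
    obtain ⟨e, he⟩ := hC.1
    exact card_pos.mpr ⟨_, (mem_inside.mp (hin he)).1⟩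
  obtain ⟨C₁, C₂, h1, h2, h12⟩ := hG.2.1
  have c6 : (vs C₁).card + (vs C₂).card ≤ Fintype.card V := by
    rw [← card_union_of_disjoint]
    · exact card_le_univ _
    · rw [Finset.disjoint_left]
      intro v hv hv'
      have := h12 v
      simp only [vs, mem_filter] at hv hv'
      tauto
  have c7 := hmin C₁ h1
  have c8 := hmin C₂ h2
  have hne : ((vs C)ᶜ).Nonempty := card_pos.mp (by omega)
  by_cases hc : ((vs C)ᶜ).card ≤ (inside s t (vs C)ᶜ).card
  · obtain ⟨D, h4, h5⟩ := exists_circuit_of_card h3 hne hc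
    have := cut_ge hG hC h5 hin h4
    omega
  · rw [c3] at c2
    omega

end Pool.Agent.Lib.MP_c13936_co
end

-- part Pool.Agent.Lib.MP_c13936_co.Rooted
section

/-! The Robertson-Seymour lemma on rooted clique minors. -/

open Finset Relation

namespace Pool.Agent.Lib.MP_c13936_co

variable {V : Type*} [DecidableEq V]

/-- a clique model whose branch sets may be broken at `Z` -/
structure PreModel (G : SimpleGraph V) (U Z : Finset V) {ι : Type*} (β : ι → Finset V) :
    Prop where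
  sub : ∀ i, β i ⊆ U
  ne : ∀ i, (β i).Nonempty
  disj : ∀ i j, i ≠ j → Disjoint (β i) (β j)
  conn : ∀ i, Conn G (β i) ∨ ∀ v ∈ β i, ∃ z ∈ Z, z ∈ β i ∧ ReflTransGen (Step G (β i)) v z
  touch : ∀ i j, i ≠ j → ((∃ z ∈ Z, z ∈ β i) ∧ ∃ z ∈ Z, z ∈ β j) ∨ Touch G (β i) (β j)

/-- a clique model rooted at `Z` -/
def RootedModel (G : SimpleGraph V) (U Z : Finset V) (γ : V → Finset V) : Prop :=
  (∀ z ∈ Z, z ∈ γ z ∧ γ z ⊆ U ∧ Conn G (γ z)) ∧
    ∀ z ∈ Z, ∀ z' ∈ Z, z ≠ z' → Disjoint (γ z) (γ z') ∧ Touch G (γ z) (γ z')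

omit [DecidableEq V] in
lemma Touch.symm {G : SimpleGraph V} {X Y : Finset V} (h : Touch G X Y) : Touch G Y X := by
  obtain ⟨a, ha, b, hb, hab⟩ := h
  exact ⟨b, hb, a, ha, hab.symm⟩

lemma Sep.mem_right {G : SimpleGraph V} {U A B : Finset V} (h : Sep G U A B) {v : V}
    (hv : v ∈ U) (hA : v ∉ A) : v ∈ B := by
  rw [← h.1, mem_union] at hv; tauto

/-- neighbours of `B \ A` lie in `B` -/
lemma Sep.adj_mem {G : SimpleGraph V} {U A B : Finset V} (h : Sep G U A B) {u v : V}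
    (hu : u ∈ U) (huA : u ∉ A) (hv : v ∈ U) (huv : G.Adj u v) : v ∈ B := by
  by_contra hvB
  exact h.2 v (h.symm.mem_right hv hvB) hvB u (h.mem_right hu huA) huA huv.symm

lemma Sep.first_hit {G : SimpleGraph V} {U A B X : Finset V} (h : Sep G U A B) (hX : X ⊆ U)
    {v w : V} (hvw : ReflTransGen (Step G X) v w) (hw : w ∈ A) (hv : v ∈ X ∩ B) :
    ∃ z ∈ A ∩ B, z ∈ X ∩ B ∧ ReflTransGen (Step G (X ∩ B)) v z := by
  induction hvw using ReflTransGen.head_induction_on with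
  | refl => exact ⟨w, mem_inter.mpr ⟨hw, (mem_inter.mp hv).2⟩, hv, ReflTransGen.refl⟩
  | @head a b hab _ ih =>
    by_cases ha : a ∈ A
    · exact ⟨a, mem_inter.mpr ⟨ha, (mem_inter.mp hv).2⟩, hv, ReflTransGen.refl⟩
    · have hb : b ∈ X ∩ B :=
        mem_inter.mpr ⟨hab.2.2, h.adj_mem (hX hab.2.1) ha (hX hab.2.2) hab.1⟩
      obtain ⟨z, h1, h2, h3⟩ := ih hb
      exact ⟨z, h1, h2, ReflTransGen.head ⟨hab.1, hv, hb⟩ h3⟩

lemma PreModel.disjoint_left {G : SimpleGraph V} {U Z A B : Finset V} {ι : Type*}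
    {β : ι → Finset V} (hβ : PreModel G U Z β) (h : Sep G U A B) (hZ : Z ⊆ A) {i₀ : ι}
    (hi₀ : Disjoint (β i₀) A) {j : ι} (hj : ¬ ∃ z ∈ A ∩ B, z ∈ β j) : Disjoint (β j) A := by
  by_cases hij : i₀ = j
  · exact hij ▸ hi₀
  rcases hβ.touch i₀ j hij with ⟨⟨z, hz, hz'⟩, -⟩ | ⟨a, ha, b, hb, hab⟩
  · exact absurd (hZ hz) (Finset.disjoint_left.mp hi₀ hz')
  have hbB : b ∈ B := h.adj_mem (hβ.sub _ ha) (Finset.disjoint_left.mp hi₀ ha) (hβ.sub _ hb) hab
  have key : ∀ w, ReflTransGen (Step G (β j)) b w → w ∉ A := by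
    intro w hw hwA
    obtain ⟨z, h1, h2, -⟩ := h.first_hit (hβ.sub j) hw hwA (mem_inter.mpr ⟨hb, hbB⟩)
    exact hj ⟨z, h1, (mem_inter.mp h2).1⟩
  rcases hβ.conn j with hc | hc
  · exact Finset.disjoint_left.mpr fun w hw => key w (hc b hb w hw)
  · obtain ⟨z, h1, -, h3⟩ := hc b hb
    exact absurd (hZ h1) (key z h3)

lemma PreModel.restrict {G : SimpleGraph V} {U Z A B : Finset V} {ι : Type*}
    {β : ι → Finset V} (hβ : PreModel G U Z β) (h : Sep G U A B) (hZ : Z ⊆ A) {i₀ : ι}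
    (hi₀ : Disjoint (β i₀) A) : PreModel G B (A ∩ B) (fun j => β j ∩ B) := by
  have K : ∀ j, (¬ ∃ z ∈ A ∩ B, z ∈ β j ∩ B) → Disjoint (β j) A ∧ β j ∩ B = β j := by
    intro j hj
    have := hβ.disjoint_left h hZ hi₀ (j := j) fun ⟨z, h1, h2⟩ =>
      hj ⟨z, h1, mem_inter.mpr ⟨h2, (mem_inter.mp h1).2⟩⟩
    exact ⟨this, inter_eq_left.mpr fun v hv =>
      h.mem_right (hβ.sub j hv) (Finset.disjoint_left.mp this hv)⟩
  have T : ∀ i j, i ≠ j → (¬ ∃ z ∈ A ∩ B, z ∈ β i ∩ B) → Touch G (β i ∩ B) (β j ∩ B) := by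
    intro i j hij hi
    obtain ⟨h1, h2⟩ := K i hi
    rcases hβ.touch i j hij with ⟨⟨z, hz, hz'⟩, -⟩ | ⟨a, ha, b, hb, hab⟩
    · exact absurd (hZ hz) (Finset.disjoint_left.mp h1 hz')
    · exact ⟨a, h2.symm ▸ ha, b, mem_inter.mpr ⟨hb, h.adj_mem (hβ.sub _ ha)
        (Finset.disjoint_left.mp h1 ha) (hβ.sub _ hb) hab⟩, hab⟩
  refine ⟨fun j => inter_subset_right, fun j => ?_, fun i j hij =>
    (hβ.disj i j hij).mono inter_subset_left inter_subset_left, fun j => ?_, fun i j hij => ?_⟩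
  · by_cases hj : ∃ z ∈ A ∩ B, z ∈ β j ∩ B
    · obtain ⟨z, -, hz⟩ := hj; exact ⟨z, hz⟩
    · rw [(K j hj).2]; exact hβ.ne j
  · by_cases hj : ∃ z ∈ A ∩ B, z ∈ β j ∩ B
    · right
      intro v hv
      rcases hβ.conn j with hc | hc
      · obtain ⟨z, h1, h2⟩ := hj
        exact h.first_hit (hβ.sub j) (hc v (mem_inter.mp hv).1 z (mem_inter.mp h2).1)
          (mem_inter.mp h1).1 hv
      · obtain ⟨z, h1, -, h3⟩ := hc v (mem_inter.mp hv).1
        exact h.first_hit (hβ.sub j) h3 (hZ h1) hv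
    · left
      obtain ⟨h1, h2⟩ := K j hj
      rw [h2]
      refine (hβ.conn j).resolve_right fun hc => ?_
      obtain ⟨v, hv⟩ := hβ.ne j
      obtain ⟨z, h3, h4, -⟩ := hc v hv
      exact Finset.disjoint_left.mp h1 h4 (hZ h3)
  · by_cases hi : ∃ z ∈ A ∩ B, z ∈ β i ∩ B
    · by_cases hj : ∃ z ∈ A ∩ B, z ∈ β j ∩ B
      · exact Or.inl ⟨hi, hj⟩
      · exact Or.inr (T j i hij.symm hj).symm
    · exact Or.inr (T i j hij hi)

lemma rtg_image_contr {G : SimpleGraph V} (x y : V) {X : Finset V} {a b : V}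
    (h : ReflTransGen (Step G X) a b) :
    ReflTransGen (Step (contr G x y) (X.image (idn x y))) (idn x y a) (idn x y b) := by
  induction h with
  | refl => exact ReflTransGen.refl
  | @tail u v _ huv ih =>
    by_cases h : idn x y u = idn x y v
    · exact h ▸ ih
    · exact ih.tail ⟨⟨h, u, v, rfl, rfl, huv.1⟩, mem_image_of_mem _ huv.2.1,
        mem_image_of_mem _ huv.2.2⟩

lemma PreModel.contract {G : SimpleGraph V} {U Z : Finset V} {ι : Type*}
    {β : ι → Finset V} (hβ : PreModel G U Z β) {i₀ : ι} {x y : V} (hx : x ∈ β i₀)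
    (hy : y ∈ β i₀) (hxy : x ≠ y) (hyZ : y ∉ Z) :
    PreModel (contr G x y) (U.erase y) Z (fun j => (β j).image (idn x y)) := by
  have hm : ∀ j, ∀ v ∈ β j, idn x y v ∈ β j := by
    intro j v hv
    by_cases h : v = y
    · have : j = i₀ := by
        by_contra hne
        exact Finset.disjoint_left.mp (hβ.disj j i₀ hne) (h ▸ hv) hy
      rw [h, idn_self, this]; exact hx
    · rwa [idn_of_ne h]
  have hs : ∀ j, (β j).image (idn x y) ⊆ β j := by
    intro j v hv
    obtain ⟨w, hw, rfl⟩ := mem_image.mp hv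
    exact hm j w hw
  have hz : ∀ z ∈ Z, idn x y z = z := fun z hz => idn_of_ne fun h => hyZ (h ▸ hz)
  have hz' : ∀ j, ∀ z ∈ Z, z ∈ β j → z ∈ (β j).image (idn x y) := fun j z h1 h2 =>
    mem_image.mpr ⟨z, h2, hz z h1⟩
  refine ⟨fun j v hv => ?_, fun j => (hβ.ne j).image _, fun i j hij =>
    (hβ.disj i j hij).mono (hs i) (hs j), fun j => ?_, fun i j hij => ?_⟩
  · obtain ⟨w, hw, rfl⟩ := mem_image.mp hv
    exact idn_mem (hβ.sub _ hx) hxy (hβ.sub _ hw)
  · rcases hβ.conn j with hc | hc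
    · exact Or.inl (hc.image_contr x y)
    · right
      intro v hv
      obtain ⟨w, hw, rfl⟩ := mem_image.mp hv
      obtain ⟨z, h1, h2, h3⟩ := hc w hw
      refine ⟨z, h1, hz' j z h1 h2, ?_⟩
      have := rtg_image_contr x y h3
      rwa [hz z h1] at this
  · rcases hβ.touch i j hij with ⟨⟨z, h1, h2⟩, z', h3, h4⟩ | ⟨a, ha, b, hb, hab⟩
    · exact Or.inl ⟨⟨z, h1, hz' i z h1 h2⟩, z', h3, hz' j z' h3 h4⟩
    · refine Or.inr ⟨_, mem_image_of_mem _ ha, _, mem_image_of_mem _ hb, ?_, a, b, rfl, rfl, hab⟩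
      intro h
      exact Finset.disjoint_left.mp (hβ.disj i j hij) (hm i a ha) (h ▸ hm j b hb)

theorem rooted (p : ℕ) : ∀ (n : ℕ) (G : SimpleGraph V) (U Z : Finset V)
    (β : Fin (2 * p) → Finset V), U.card = n → Z ⊆ U → Z.card = p → PreModel G U Z β →
    (∀ A B, Sep G U A B → Z ⊆ A → (∃ i, Disjoint (β i) A) → p ≤ (A ∩ B).card) →
    ∃ γ, RootedModel G U Z γ := by
  intro n
  induction n using Nat.strong_induction_on with
  | _ n ih =>
  intro G U Z β hn hZU hZ hβ h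
  by_cases h1 : ∃ A B, Sep G U A B ∧ Z ⊆ A ∧ (∃ i, Disjoint (β i) A) ∧ (A ∩ B).card = p ∧ B ≠ U
  · obtain ⟨A, B, hsep, hZA, ⟨i₀, hi₀⟩, hcard, hB⟩ := h1
    have hβ' := hβ.restrict hsep hZA hi₀
    obtain ⟨γ, hγ1, hγ2⟩ := ih B.card
      (hn ▸ card_lt_card (ssubset_of_subset_of_ne hsep.right_subset hB)) G B (A ∩ B) _ rfl
      inter_subset_right hcard hβ' (fun A' B' hs hA' ⟨i, hi⟩ => by
        have := hsep.combine_right hs hA'
        rw [← this.2]
        refine h _ _ this.1 (hZA.trans subset_union_right) ⟨i, ?_⟩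
        have h2 : Disjoint (β i) A := hβ.disjoint_left hsep hZA hi₀ fun ⟨z, h1, h2⟩ =>
          Finset.disjoint_left.mp hi (mem_inter.mpr ⟨h2, (mem_inter.mp h1).2⟩) (hA' h1)
        rw [disjoint_union_right]
        refine ⟨Finset.disjoint_left.mpr fun v hv => Finset.disjoint_left.mp hi ?_, h2⟩
        exact mem_inter.mpr ⟨hv, hsep.mem_right (hβ.sub _ hv) (Finset.disjoint_left.mp h2 hv)⟩)
    have L := menger p _ G A Z (A ∩ B) rfl hZA inter_subset_left (fun A1 B1 hs h4 h5 => by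
      have := hsep.combine_left hs h5
      rw [← this.2]
      exact h _ _ this.1 h4 ⟨i₀, hi₀.mono_right hs.left_subset⟩)
    obtain ⟨Q, hQ1, hQ2⟩ := L.index hZ
    choose! t ht1 ht2 using fun z hz => (hQ1 z hz).2.2.2
    have htne : ∀ z ∈ Z, ∀ z' ∈ Z, z ≠ z' → t z ≠ t z' := fun z hz z' hz' hne h =>
      Finset.disjoint_left.mp (hQ2 z hz z' hz' hne) (ht2 z hz) (h ▸ ht2 z' hz')
    have cross : ∀ z ∈ Z, ∀ z' ∈ Z, z ≠ z' → Disjoint (Q z) (γ (t z')) := by
      intro z hz z' hz' hne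
      rw [Finset.disjoint_left]
      intro v hv hv'
      have hvX : v ∈ A ∩ B :=
        mem_inter.mpr ⟨(hQ1 z hz).2.1 hv, (hγ1 _ (ht1 z' hz')).2.1 hv'⟩
      by_cases hvt : v = t z'
      · exact Finset.disjoint_left.mp (hQ2 z hz z' hz' hne) hv (hvt ▸ ht2 z' hz')
      · exact Finset.disjoint_left.mp (hγ2 v hvX _ (ht1 z' hz') hvt).1 (hγ1 v hvX).1 hv'
    refine ⟨fun z => Q z ∪ γ (t z), fun z hz => ?_, fun z hz z' hz' hne => ⟨?_, ?_⟩⟩
    · obtain ⟨a1, a2, a3, -⟩ := hQ1 z hz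
      obtain ⟨b1, b2, b3⟩ := hγ1 _ (ht1 z hz)
      exact ⟨mem_union_left _ a1,
        union_subset (a2.trans hsep.left_subset) (b2.trans hsep.right_subset),
        a3.union b3 (ht2 z hz) b1⟩
    · rw [disjoint_union_left, disjoint_union_right, disjoint_union_right]
      exact ⟨⟨hQ2 z hz z' hz' hne, cross z hz z' hz' hne⟩, (cross z' hz' z hz hne.symm).symm,
        (hγ2 _ (ht1 z hz) _ (ht1 z' hz') (htne z hz z' hz' hne)).1⟩
    · obtain ⟨a, ha, b, hb, hab⟩ := (hγ2 _ (ht1 z hz) _ (ht1 z' hz') (htne z hz z' hz' hne)).2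
      exact ⟨a, mem_union_right _ ha, b, mem_union_right _ hb, hab⟩
  by_cases h2 : ∃ i, ∃ x ∈ β i, ∃ y ∈ β i, G.Adj x y ∧ y ∉ Z
  · obtain ⟨i₀, x, hx, y, hy, hxy, hyZ⟩ := h2
    have hxU := hβ.sub _ hx
    have hyU := hβ.sub _ hy
    have hz : ∀ z ∈ Z, idn x y z = z := fun z hz => idn_of_ne fun h => hyZ (h ▸ hz)
    obtain ⟨γ, hγ1, hγ2⟩ := ih (U.erase y).card (hn ▸ card_erase_lt_of_mem hyU) (contr G x y)
      (U.erase y) Z _ rfl (fun z hz => mem_erase.mpr ⟨fun h => hyZ (h ▸ hz), hZU hz⟩) hZ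
      (hβ.contract hx hy hxy.ne hyZ) (fun A' B' hs hA' ⟨i, hi⟩ => by
        by_contra hlt
        have hsep := hs.lift_contr hxy.ne hxU
        set A := U.filter (idn x y · ∈ A') with hA
        set B := U.filter (idn x y · ∈ B') with hB
        have hZA : Z ⊆ A := fun z hz' => mem_filter.mpr ⟨hZU hz', by rw [hz z hz']; exact hA' hz'⟩
        have hd : Disjoint (β i) A := Finset.disjoint_left.mpr fun v hv hv' =>
          Finset.disjoint_left.mp hi (mem_image_of_mem _ hv) (mem_filter.mp hv').2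
        have h2 := h A B hsep hZA ⟨i, hd⟩
        have h3 : A ∩ B = U.filter (idn x y · ∈ A' ∩ B') := filter_inter_lift _ _ _ _
        have hxm : x ∈ A' ∩ B' := by
          by_contra hcon
          have := card_lift_le' (y := y) (U := U) hcon
          rw [← h3] at this
          omega
        have hcard : (A ∩ B).card = p := by
          have := card_lift_le (x := x) (y := y) (U := U) (X := A' ∩ B')
          rw [← h3] at this
          omega
        have hyX : y ∈ A ∩ B := by rw [h3]; exact mem_filter.mpr ⟨hyU, by rwa [idn_self]⟩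
        have hBU : B = U := by
          by_contra hne
          exact h1 ⟨A, B, hsep, hZA, ⟨i, hd⟩, hcard, hne⟩
        have : Z = A ∩ B := eq_of_subset_of_card_le
          (fun z hz => mem_inter.mpr ⟨hZA hz, hBU ▸ hZU hz⟩) (by omega)
        exact hyZ (this ▸ hyX))
    refine ⟨fun z => U.filter (idn x y · ∈ γ z), fun z hz' => ?_, fun z h3 z' h4 hne => ?_⟩
    · obtain ⟨a1, a2, a3⟩ := hγ1 z hz'
      exact ⟨mem_filter.mpr ⟨hZU hz', by rwa [hz z hz']⟩, filter_subset _ _,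
        a3.lift_contr hxy hxU hyU a2⟩
    · exact ⟨disjoint_lift _ (hγ2 z h3 z' h4 hne).1,
        (hγ2 z h3 z' h4 hne).2.lift_contr hyU (hγ1 z h3).2.1 (hγ1 z' h4).2.1⟩
  push Not at h2
  classical
  let I := univ.filter (fun i => ¬ ∃ z ∈ Z, z ∈ β i)
  have hIc : p ≤ I.card := by
    have h3 : (univ.filter (fun i => ∃ z ∈ Z, z ∈ β i)).card ≤ Z.card := by
      have : ∀ i ∈ univ.filter (fun i => ∃ z ∈ Z, z ∈ β i), ∃ z, z ∈ Z ∧ z ∈ β i :=
        fun i hi => (mem_filter.mp hi).2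
      obtain ⟨v₀⟩ : Nonempty (Fin (2 * p) → V) := ⟨fun i => (hβ.ne i).choose⟩
      choose f hf1 hf2 using this
      refine card_le_card_of_injOn (fun i => if hi : _ then f i hi else v₀ i) ?_ ?_
      · intro i hi
        simp only [dif_pos (mem_coe.mp hi)]
        exact hf1 i _
      · intro i hi j hj hij
        simp only [dif_pos (mem_coe.mp hi), dif_pos (mem_coe.mp hj)] at hij
        by_contra hne
        exact Finset.disjoint_left.mp (hβ.disj i j hne) (hf2 i _) (hij ▸ hf2 j _)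
    have h4 := card_filter_add_card_filter_not (s := (univ : Finset (Fin (2 * p))))
      (fun i => ∃ z ∈ Z, z ∈ β i)
    rw [card_univ, Fintype.card_fin] at h4
    have h5 : I.card = (univ.filter (fun i => ¬ ∃ z ∈ Z, z ∈ β i)).card := rfl
    omega
  choose c hc using hβ.ne
  have hsing : ∀ i ∈ I, ∀ v ∈ β i, v = c i := by
    intro i hi v hv
    have hi' := (mem_filter.mp hi).2
    rcases hβ.conn i with h3 | h3
    · exact h3.closed (· = c i) (hc i) rfl
        (fun u hu w hw huw _ => absurd ⟨w, h2 i u hu w hw huw, hw⟩ hi') v hv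
    · obtain ⟨z, h4, h5, -⟩ := h3 v hv
      exact absurd ⟨z, h4, h5⟩ hi'
  have hcinj : Function.Injective c := by
    intro i j hij
    by_contra hne
    exact Finset.disjoint_left.mp (hβ.disj i j hne) (hc i) (hij ▸ hc j)
  have L := menger p _ G U Z (I.image c) rfl hZU (fun v hv => by
      obtain ⟨i, -, rfl⟩ := mem_image.mp hv
      exact hβ.sub i (hc i)) (fun A B hs h4 h5 => by
      by_cases h6 : I.image c ⊆ A
      · refine le_trans ?_ (card_le_card (subset_inter h6 h5))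
        rwa [card_image_of_injective _ hcinj]
      · obtain ⟨v, hv, hvA⟩ := not_subset.mp h6
        obtain ⟨i, hi, rfl⟩ := mem_image.mp hv
        exact h A B hs h4 ⟨i, Finset.disjoint_left.mpr fun w hw => hsing i hi w hw ▸ hvA⟩)
  obtain ⟨Q, hQ1, hQ2⟩ := L.index hZ
  refine ⟨Q, fun z hz => ⟨(hQ1 z hz).1, (hQ1 z hz).2.1, (hQ1 z hz).2.2.1⟩,
    fun z hz z' hz' hne => ⟨hQ2 z hz z' hz' hne, ?_⟩⟩
  obtain ⟨u, hu, hu'⟩ := (hQ1 z hz).2.2.2
  obtain ⟨w, hw, hw'⟩ := (hQ1 z' hz').2.2.2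
  obtain ⟨i, hi, rfl⟩ := mem_image.mp hu
  obtain ⟨j, hj, rfl⟩ := mem_image.mp hw
  have hij : i ≠ j := fun h =>
    Finset.disjoint_left.mp (hQ2 z hz z' hz' hne) hu' (h ▸ hw')
  rcases hβ.touch i j hij with h3 | ⟨a, ha, b, hb, hab⟩
  · exact absurd h3.1 (mem_filter.mp hi).2
  · exact ⟨_, hu', _, hw', hsing i hi a ha ▸ hsing j hj b hb ▸ hab⟩

end Pool.Agent.Lib.MP_c13936_co
end
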